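import Pool.Agent.LibFL52.Defs

/-! Row C1 (SHORT/MEDIUM). Basic identities in a flag system.

`eq_of`: `uniq k` gives `y = x` or `y = s k x`, and `v k (s k x) ≠ v k x` (`move`).
`s_s`: `s k (s k x)` agrees with `x` in all ranks but `k` (`keep` twice), so by `uniq k x` it is `x` or `s k x`; the second is
impossible by `move k (s k x)`.
`comm`: `mix (k+1)` applied to `s k x` and `s m x` (`v (k+1)` of both is `v (k+1) x` by `keep`, as `k + 1 ≠ k, m`): `z` with
`v j z = v j (s k x)` for `j ≤ k+1` and `v j z = v j (s m x)` for `j ≥ k+1`. `z` agrees with `s k x` except in rank `m`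
and with `s m x` except in rank `k`; by `uniq` and `move`, `z = s m (s k x)` and `z = s k (s m x)`.
`glue`: `mix (k+1)` applied to `s k x` and `z`: `w`; `w` agrees with `z` except in rank `k` and `v k w = v k (s k x) ≠ v k x = v k z`, so
`w = s k z`; so `v j (s k z) = v j w = v j (s k x)` for `j ≤ k + 1`. -/

set_option autoImplicit false

noncomputable section

open scoped Classical

namespace Pool.Agent.LibFL52

variable {d : ℕ} {X F : Type} {v : ℕ → X → F} {s : ℕ → X → X}

theorem Fl.s_s (h : Fl d v s) {k : ℕ} (hk : k < d) (x : X) : s k (s k x) = x := by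
  have key : s k (s k x) = x ∨ s k (s k x) = s k x :=
    h.uniq k hk x (s k (s k x)) (fun j hj hjk => by rw [h.keep k hk j hj hjk, h.keep k hk j hj hjk])
  rcases key with e | e
  · exact e
  · exact absurd (congrArg (v k) e) (h.move k hk (s k x))

theorem Fl.comm (h : Fl d v s) {k m : ℕ} (hk : k + 2 ≤ m) (hm : m < d) (x : X) :
    s m (s k x) = s k (s m x) := by
  have hk' : k < d := by omega
  obtain ⟨z, hz1, hz2⟩ := h.mix (k + 1) (by omega) (s k x) (s m x)
    (by rw [h.keep k hk' (k + 1) (by omega) (by omega), h.keep m hm (k + 1) (by omega) (by omega)])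
  have e1 : z = s m (s k x) := by
    have key : z = s k x ∨ z = s m (s k x) := by
      refine h.uniq m hm (s k x) z (fun j hj hjm => ?_)
      by_cases hjk : j ≤ k + 1
      · exact hz1 j hjk
      · rw [hz2 j (by omega) hj, h.keep m hm j hj hjm, h.keep k hk' j hj (by omega)]
    rcases key with e | e
    · exfalso
      have h1 : v m z = v m (s m x) := hz2 m (by omega) hm
      rw [e, h.keep k hk' m hm (by omega)] at h1
      exact h.move m hm x h1.symm
    · exact e
  have e2 : z = s k (s m x) := by
    have key : z = s m x ∨ z = s k (s m x) := by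
      refine h.uniq k hk' (s m x) z (fun j hj hjk => ?_)
      by_cases hj1 : k + 1 ≤ j
      · exact hz2 j hj1 hj
      · rw [hz1 j (by omega), h.keep k hk' j hj hjk, h.keep m hm j hj (by omega)]
    rcases key with e | e
    · exfalso
      have h1 : v k z = v k (s k x) := hz1 k (by omega)
      rw [e, h.keep m hm k hk' (by omega)] at h1
      exact h.move k hk' x h1.symm
    · exact e
  rw [← e1, ← e2]

theorem Fl.glue (h : Fl d v s) {k : ℕ} (hk : k + 1 < d) {x z : X} (hz : ∀ j ≤ k + 1, v j z = v j x) :
    ∀ j ≤ k + 1, v j (s k z) = v j (s k x) := by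
  have hk' : k < d := by omega
  obtain ⟨w, hw1, hw2⟩ := h.mix (k + 1) hk (s k x) z
    (by rw [h.keep k hk' (k + 1) (by omega) (by omega), hz (k + 1) le_rfl])
  have e : w = s k z := by
    have key : w = z ∨ w = s k z := by
      refine h.uniq k hk' z w (fun j hj hjk => ?_)
      by_cases hj1 : k + 1 ≤ j
      · exact hw2 j hj1 hj
      · rw [hw1 j (by omega), h.keep k hk' j hj hjk, hz j (by omega)]
    rcases key with e | e
    · exfalso
      have h1 : v k w = v k (s k x) := hw1 k (by omega)
      rw [e, hz k (by omega)] at h1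
      exact h.move k hk' x h1.symm
    · exact e
  intro j hj
  rw [← e]
  exact hw1 j hj

end Pool.Agent.LibFL52
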