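import Pool.Agent.LibFL52.C1

/-! Row C2 (MEDIUM). The allowed squares. ONLY Defs and C1.

`hit_congr`: `hit d v j x` depends only on `v j x` and `v (nx d j) x`.
`ok_sk`: `s k` changes only rank `k`; `hit j`, `j ≥ k + 1`, uses the ranks `j` and `nx d j`, both `≥ k + 1` and `< d`.
`ok_sm`: for `k + 3 < d` the colour is `d - 2`; the ranks `j`, `nx d j` with `j + 3 ≤ d` are never `d - 2`. (For `k + 3 = d` trivial.)
`ok_unique`: if `k < k'` then `k' + 1 ≥ k + 2`, so `ok k x` says not `hit (k'+1)`, and `ok k' x` says `hit (k'+1)`.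
`exists_ok`: `k + 3 = d`: `z = x`. Otherwise let `r = k + 1` (`r + 3 ≤ d`), `f = v r x`; `al r f = v (nx d r) x0` for a flag `x0` with `v r x0 = f`
(`Exists.choose_spec`); `mix r x x0` gives `z0` with `v j z0 = v j x` (`j ≤ r`), `v j z0 = v j x0` (`j ≥ r`): `hit r z0`.
Then by induction on `t`, `r ≤ t`, `t + 3 ≤ d`: there is `z` with `v j z = v j x` for `j ≤ r`, `hit r z` and not `hit j z` for `r < j ≤ t`: step
from `t` to `t + 1`: if `hit (t+1) z` replace `z` by `s (nx d (t+1)) z`: this changes only the rank `nx d (t+1)`, which is larger than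
`j` and `nx d j` for all `j ≤ t`; `hit (t+1)` fails afterwards by `move` (`v (t+1)` unchanged). -/

set_option autoImplicit false

noncomputable section

open scoped Classical

namespace Pool.Agent.LibFL52

variable {d : ℕ} {X F : Type} {v : ℕ → X → F} {s : ℕ → X → X}

private theorem C2_hit_congr {j : ℕ} {x y : X} (h1 : v j x = v j y) (h2 : v (nx d j) x = v (nx d j) y) :
    hit d v j x ↔ hit d v j y := by
  unfold hit
  rw [h1, h2]

private theorem C2_nx_lt {j : ℕ} (hj : j + 3 ≤ d) : nx d j < d := by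
  unfold nx
  split_ifs <;> omega

private theorem C2_nx_gt {j : ℕ} (hj : j + 3 ≤ d) : j < nx d j := by
  unfold nx
  split_ifs <;> omega

private theorem C2_nx_ne {j : ℕ} (hj : j + 3 ≤ d) : nx d j ≠ d - 2 := by
  unfold nx
  split_ifs <;> omega

theorem Fl.ok_sk (h : Fl d v s) {k : ℕ} (hk : k + 3 ≤ d) {x : X} (hx : ok d v k x) : ok d v k (s k x) := by
  rcases hx with hx | ⟨h1, h2, h3⟩
  · exact Or.inl hx
  · right
    have hc : ∀ j, k + 1 ≤ j → j + 3 ≤ d → (hit d v j (s k x) ↔ hit d v j x) := by
      intro j hj1 hj2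
      have := C2_nx_lt hj2
      have := C2_nx_gt hj2
      exact C2_hit_congr (h.keep k (by omega) j (by omega) (by omega) x)
        (h.keep k (by omega) (nx d j) (by omega) (by omega) x)
    refine ⟨h1, (hc (k + 1) le_rfl (by omega)).2 h2, fun j hj1 hj2 => ?_⟩
    rw [hc j (by omega) hj2]
    exact h3 j hj1 hj2

theorem Fl.ok_sm (h : Fl d v s) {k : ℕ} (hk : k + 3 ≤ d) {x : X} (hx : ok d v k x) :
    ok d v k (s (mm d k) x) := by
  rcases hx with hx | ⟨h1, h2, h3⟩
  · exact Or.inl hx
  · right
    have hm : mm d k = d - 2 := by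
      unfold mm
      rw [if_neg (by omega)]
    rw [hm]
    have hc : ∀ j, j + 3 ≤ d → (hit d v j (s (d - 2) x) ↔ hit d v j x) := by
      intro j hj2
      have := C2_nx_lt hj2
      have := C2_nx_ne hj2
      exact C2_hit_congr (h.keep (d - 2) (by omega) j (by omega) (by omega) x)
        (h.keep (d - 2) (by omega) (nx d j) (by omega) (by omega) x)
    refine ⟨h1, (hc (k + 1) (by omega)).2 h2, fun j hj1 hj2 => ?_⟩
    rw [hc j hj2]
    exact h3 j hj1 hj2

theorem ok_unique {k k' : ℕ} (hk : k + 3 < d) (hk' : k' + 3 < d) {x : X} (hx : ok d v k x) (hx' : ok d v k' x) :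
    k = k' := by
  rcases hx with hx | ⟨h1, h2, h3⟩
  · omega
  rcases hx' with hx' | ⟨h1', h2', h3'⟩
  · omega
  rcases lt_trichotomy k k' with hlt | heq | hgt
  · exact absurd h2' (h3 (k' + 1) (by omega) (by omega))
  · exact heq
  · exact absurd h2 (h3' (k + 1) (by omega) (by omega))

theorem Fl.exists_ok (h : Fl d v s) {k : ℕ} (hk : k + 3 ≤ d) (x : X) :
    ∃ z, (∀ j ≤ k + 1, v j z = v j x) ∧ ok d v k z := by
  by_cases hkd : k + 3 = d
  · exact ⟨x, fun j _ => rfl, Or.inl hkd⟩
  have hlt : k + 3 < d := by omega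
  have hex : ∃ x0, v (k + 1) x0 = v (k + 1) x := ⟨x, rfl⟩
  obtain ⟨z0, hz1, hz2⟩ := h.mix (k + 1) (by omega) x hex.choose hex.choose_spec.symm
  have hr : k + 1 + 3 ≤ d := by omega
  have hz0hit : hit d v (k + 1) z0 := by
    unfold hit
    rw [hz1 (k + 1) le_rfl, hz2 (nx d (k + 1)) (by have := C2_nx_gt hr; omega) (C2_nx_lt hr)]
    unfold al
    rw [dif_pos hex]
  have ind : ∀ n : ℕ, k + 1 + n + 3 ≤ d → ∃ z, (∀ j ≤ k + 1, v j z = v j x) ∧ hit d v (k + 1) z ∧
      ∀ j, k + 2 ≤ j → j ≤ k + 1 + n → ¬ hit d v j z := by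
    intro n
    induction n with
    | zero =>
      intro _
      exact ⟨z0, hz1, hz0hit, fun j hj1 hj2 => by omega⟩
    | succ n ih =>
      intro hn
      obtain ⟨z, hza, hzb, hzc⟩ := ih (by omega)
      by_cases hh : hit d v (k + 1 + n + 1) z
      · have ht : k + 1 + n + 1 + 3 ≤ d := by omega
        have hlt' := C2_nx_lt ht
        have hgt' := C2_nx_gt ht
        refine ⟨s (nx d (k + 1 + n + 1)) z, ?_, ?_, ?_⟩
        · intro j hj
          rw [h.keep _ hlt' j (by omega) (by omega)]
          exact hza j hj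
        · have hnx : nx d (k + 1) = k + 2 := by
            unfold nx
            rw [if_neg (by omega)]
          refine (C2_hit_congr (h.keep _ hlt' (k + 1) (by omega) (by omega) z) ?_).2 hzb
          rw [hnx]
          exact h.keep _ hlt' (k + 2) (by omega) (by omega) z
        · intro j hj1 hj2
          by_cases hj3 : j ≤ k + 1 + n
          · have hnx : nx d j = j + 1 := by
              unfold nx
              rw [if_neg (by omega)]
            have := C2_hit_congr (h.keep _ hlt' j (by omega) (by omega) z)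
              (show v (nx d j) (s (nx d (k + 1 + n + 1)) z) = v (nx d j) z by
                rw [hnx]
                exact h.keep _ hlt' (j + 1) (by omega) (by omega) z)
            rw [this]
            exact hzc j hj1 hj3
          · have hj : j = k + 1 + n + 1 := by omega
            subst hj
            intro hcon
            unfold hit at hcon hh
            rw [h.keep _ hlt' (k + 1 + n + 1) (by omega) (by omega), ← hh] at hcon
            exact h.move _ hlt' z hcon
      · refine ⟨z, hza, hzb, fun j hj1 hj2 => ?_⟩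
        by_cases hj3 : j ≤ k + 1 + n
        · exact hzc j hj1 hj3
        · have hj : j = k + 1 + n + 1 := by omega
          rw [hj]
          exact hh
  obtain ⟨z, hza, hzb, hzc⟩ := ind (d - (k + 4)) (by omega)
  exact ⟨z, hza, Or.inr ⟨hlt, hzb, fun j hj1 hj2 => hzc j hj1 (by omega)⟩⟩

end Pool.Agent.LibFL52
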