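import Pool.Agent.LibFL52.C2

/-! Row C3 (MEDIUM). The 2-factor and the connectivity.

`r0_adj`: `fromRel_adj`, `s_s`, `move`. `r0_two`: the neighbours of `x` are `s (d-2) x` and `s (d-1) x`, different because they have
different elements of rank `d - 2` (`move`, `keep`); `Set.ncard_pair`.
`link_conn`: descending induction on `k ≤ d - 2` (say `k = d - 2 - t`): if `v j x = v j y` for all `j < k` then `x`, `y` are reachable in
`link R0 (Ok d v)`. `k = d - 2`: by `conn` a path of steps `s (d-2)`, `s (d-1)`: edges of `R0`. `k + 3 ≤ d`: by `conn k` it is enough to join `x` and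
`s j x`, `j ≥ k`. For `j > k` they agree in the ranks `≤ k`: induction. For `j = k`: `exists_ok` gives `z` with `ok k z`, `v j z = v j x` for `j ≤ k+1`;
`x` and `z` are joined by induction (they agree in ranks `< k + 1`), `z` and `s k z` by the link of the index `(k, z)` (they are different by
`move`), `s k z` and `s k x` agree in the ranks `≤ k + 1` by `glue`: induction. Finally `k = 0`. See `link` in LibHP88/Defs. -/

set_option autoImplicit false

noncomputable section

open scoped Classical

namespace Pool.Agent.LibFL52

variable {d : ℕ} {X F : Type} {v : ℕ → X → F} {s : ℕ → X → X}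

theorem Fl.r0_adj (h : Fl d v s) (hd : 2 ≤ d) (x y : X) :
    (R0 d s).Adj x y ↔ y = s (d - 2) x ∨ y = s (d - 1) x := by
  unfold R0
  rw [SimpleGraph.fromRel_adj]
  have h2 : d - 2 < d := by omega
  have h1 : d - 1 < d := by omega
  constructor
  · rintro ⟨-, (h3 | h3) | (h3 | h3)⟩
    · exact Or.inl h3
    · exact Or.inr h3
    · left
      rw [h3, h.s_s h2]
    · right
      rw [h3, h.s_s h1]
  · intro h3
    refine ⟨?_, Or.inl h3⟩
    rintro rfl
    rcases h3 with h3 | h3
    · exact h.move _ h2 x (by rw [← h3])
    · exact h.move _ h1 x (by rw [← h3])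

theorem Fl.r0_two (h : Fl d v s) (hd : 2 ≤ d) : LibHP88.Two (R0 d s) := by
  intro x
  have h2 : d - 2 < d := by omega
  have h1 : d - 1 < d := by omega
  have e : (R0 d s).neighborSet x = {s (d - 2) x, s (d - 1) x} := by
    ext y
    rw [SimpleGraph.mem_neighborSet, h.r0_adj hd]
    simp
  rw [e]
  apply Set.ncard_pair
  intro h3
  have h4 := h.keep (d - 1) h1 (d - 2) h2 (by omega) x
  rw [← h3] at h4
  exact h.move _ h2 x h4

private theorem C3_aux (h : Fl d v s) (hd : 2 ≤ d) (t : ℕ) : ∀ k, k + t = d - 2 → ∀ x y : X,
    (∀ j < k, v j x = v j y) →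
    (LibHP88.link (R0 d s) (Ok d v) (fun i => i.2) (fun i => s i.1 i.2)).Reachable x y := by
  induction t with
  | zero =>
    intro k hk x y hxy
    have hk' : k < d := by omega
    have hc := h.conn k hk' x y hxy
    induction hc with
    | refl => exact SimpleGraph.Reachable.refl _
    | @tail b c _ hbc ih =>
      obtain ⟨j, hj1, hj2, hj3⟩ := hbc
      by_cases hb : ∀ j < k, v j x = v j b
      · refine (ih hb).trans (SimpleGraph.Adj.reachable ?_)
        unfold LibHP88.link
        rw [SimpleGraph.sup_adj]
        left
        rw [h.r0_adj hd]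
        have : j = d - 2 ∨ j = d - 1 := by omega
        rcases this with rfl | rfl
        · exact Or.inl hj3
        · exact Or.inr hj3
      · exfalso
        apply hb
        intro i hi
        rw [hxy i hi, hj3]
        exact h.keep j hj2 i (by omega) (by omega) b
  | succ t ih =>
    intro k hk x y hxy
    have hk3 : k + 3 ≤ d := by omega
    have hk' : k < d := by omega
    have hstep : ∀ j, k ≤ j → j < d → ∀ u : X,
        (LibHP88.link (R0 d s) (Ok d v) (fun i => i.2) (fun i => s i.1 i.2)).Reachable u
          (s j u) := by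
      intro j hj1 hj2 u
      by_cases hjk : j = k
      · subst hjk
        obtain ⟨z, hz1, hz2⟩ := h.exists_ok hk3 u
        have e1 : (LibHP88.link (R0 d s) (Ok d v) (fun i => i.2)
            (fun i => s i.1 i.2)).Reachable u z :=
          ih (j + 1) (by omega) u z (fun i hi => (hz1 i (by omega)).symm)
        have e2 : (LibHP88.link (R0 d s) (Ok d v) (fun i => i.2)
            (fun i => s i.1 i.2)).Adj z (s j z) := by
          unfold LibHP88.link
          rw [SimpleGraph.sup_adj]
          right
          rw [SimpleGraph.fromEdgeSet_adj]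
          refine ⟨⟨(⟨j, hj2⟩, z), ⟨hk3, hz2⟩, rfl⟩, ?_⟩
          intro hc
          exact h.move j hj2 z (by rw [← hc])
        have e3 : (LibHP88.link (R0 d s) (Ok d v) (fun i => i.2)
            (fun i => s i.1 i.2)).Reachable (s j z) (s j u) :=
          ih (j + 1) (by omega) _ _ (fun i hi => h.glue (by omega) hz1 i (by omega))
        exact e1.trans (e2.reachable.trans e3)
      · refine ih (k + 1) (by omega) _ _ (fun i hi => ?_)
        exact (h.keep j hj2 i (by omega) (by omega) u).symm
    have hc := h.conn k hk' x y hxy
    clear hxy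
    induction hc with
    | refl => exact SimpleGraph.Reachable.refl _
    | @tail b c _ hbc ih2 =>
      obtain ⟨j, hj1, hj2, hj3⟩ := hbc
      rw [hj3]
      exact ih2.trans (hstep j hj1 hj2 b)

theorem Fl.link_conn (h : Fl d v s) (hd : 2 ≤ d) (x y : X) :
    (LibHP88.link (R0 d s) (Ok d v) (fun i => i.2) (fun i => s i.1 i.2)).Reachable x y := by
  exact C3_aux h hd (d - 2) 0 (by omega) x y (fun j hj => by omega)

end Pool.Agent.LibFL52
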