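import Pool.Agent.LibFL52.C3
import Pool.Agent.LibHP88.A3

/-! Row C4 (SHORT/MEDIUM). A minimal connecting family of squares. ONLY C3 (`link_conn`) and LibHP88/A3 (`A3_reach_of`, `A3_link_adj`, `A3_link_mono`).

Among the finitely many subsets `t ⊆ Ok d v` for which all pairs are reachable in `link R0 t` take one which is minimal for inclusion
(`Set.Finite.exists_minimal`, or `Nat.find` on the cardinality, or strong induction on `t.ncard`; `Ok d v` itself is one by `link_conn`). If for some `i ∈ t` the ends `i.2`, `s i.1 i.2` were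
reachable in `link R0 (t \ {i})` then every edge of `link R0 t` would join reachable vertices of `link R0 (t \ {i})`, so (`A3_reach_of`) `t \ {i}` would be a smaller one. -/

set_option autoImplicit false

noncomputable section

open scoped Classical

namespace Pool.Agent.LibFL52

variable {d : ℕ} {X F : Type} {v : ℕ → X → F} {s : ℕ → X → X}

theorem Fl.exists_min [Finite X] (h : Fl d v s) (hd : 2 ≤ d) :
    ∃ t : Set (Fin d × X), t ⊆ Ok d v ∧
      (∀ x y, (LibHP88.link (R0 d s) t (fun i => i.2) (fun i => s i.1 i.2)).Reachable x y) ∧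
      ∀ i ∈ t, ¬ (LibHP88.link (R0 d s) (t \ {i}) (fun i => i.2) (fun i => s i.1 i.2)).Reachable i.2 (s i.1 i.2) := by
  let P : Set (Set (Fin d × X)) := {t | t ⊆ Ok d v ∧
    ∀ x y, (LibHP88.link (R0 d s) t (fun i => i.2) (fun i => s i.1 i.2)).Reachable x y}
  have hP : P.Nonempty := ⟨Ok d v, subset_rfl, fun x y => h.link_conn hd x y⟩
  obtain ⟨t, ht, hmin⟩ := Set.exists_min_image P (fun t => t.ncard) (Set.toFinite P) hP
  refine ⟨t, ht.1, ht.2, fun i hi hr => ?_⟩
  have hlt : (t \ {i}).ncard < t.ncard := Set.ncard_sdiff_singleton_lt_of_mem hi (Set.toFinite t)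
  have hmem : t \ {i} ∈ P := by
    refine ⟨Set.sdiff_subset.trans ht.1, fun x y => ?_⟩
    refine LibHP88.A3_reach_of (fun x y hxy => ?_) (ht.2 x y)
    rw [LibHP88.A3_link_adj] at hxy
    rcases hxy with h1 | ⟨⟨j, hj, h1⟩, h2⟩
    · exact SimpleGraph.Adj.reachable (LibHP88.A3_link_adj.2 (Or.inl h1))
    · by_cases hji : j = i
      · subst hji
        rcases Sym2.eq_iff.1 h1 with ⟨e1, e2⟩ | ⟨e1, e2⟩
        · rw [e1, e2]
          exact hr
        · rw [e1, e2]
          exact hr.symm
      · exact SimpleGraph.Adj.reachable (LibHP88.A3_link_adj.2 (Or.inr ⟨⟨j, ⟨hj, hji⟩, h1⟩, h2⟩))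
  exact absurd (hmin _ hmem) (not_le.2 hlt)

end Pool.Agent.LibFL52
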