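import Pool.Agent.LibFL52.C3
import Pool.Agent.LibHP88.A3

/-! Row C6 (MEDIUM). The squares of a forest use different edges. ONLY C1, C2, C3 (`r0_adj`) and LibHP88/A3 (`A3_link_adj`).

Let `i = (k, x)`, `j = (k', x')` in `t`, `i ≠ j`, `m = mm d k`, `m' = mm d k'` (both `< d`, `k + 2 ≤ m`). Suppose an edge `{x, s m x}` or `{s k x, s k (s m x)} = {s k x, s m (s k x)}` (`comm`)
of the square of `i` equals such an edge of the square of `j`. The two ends of an edge `{y, s m y}` differ exactly in rank `m` (`move`, `keep`), so `m = m'`. If `k + 3 = d` then `m = d - 1`, so `k' + 3 = d`, `k = k'`. Otherwise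
`m = d - 2`, both levels are `< d - 3`; the common vertex `y` is one of `x, s m x, s k x, s m (s k x)`, allowed for level `k` by `ok_sk`, `ok_sm`, and in the same way allowed for level `k'`: `k = k'` by `ok_unique`. So `x'` is one of
`x, s m x, s k x, s m (s k x)` (use `s_s`, `comm`). `x' = x` gives `i = j` (`Fin.ext`). In the other cases
`x` and `s k x` are joined in `link R0 (t \ {i})`: `x' = s m x`: `x - s m x` (R0), `s m x - s k (s m x)` (link of `j`), `s k (s m x) = s m (s k x) - s k x` (R0); `x' = s k x`: the link of `j` is `{s k x, x}`; `x' = s m (s k x)`: `s k x' = s m x`.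
Contradiction to `hac i`. (All three inequalities of the statement follow from one private lemma: no common edge among the four.) -/

set_option autoImplicit false

noncomputable section

open scoped Classical

namespace Pool.Agent.LibFL52

variable {d : ℕ} {X F : Type} {v : ℕ → X → F} {s : ℕ → X → X}

private theorem C6_mm {d k : ℕ} (hk : k + 3 ≤ d) : k + 2 ≤ mm d k ∧ mm d k < d := by
  unfold mm
  split_ifs with h <;> omega

private theorem C6_mm_cases {d k k' : ℕ} (hk : k + 3 ≤ d) (hk' : k' + 3 ≤ d) (h : mm d k = mm d k') :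
    (k = k') ∨ (k + 3 < d ∧ k' + 3 < d) := by
  unfold mm at h
  split_ifs at h with h1 h2 h2
  · left; omega
  · omega
  · omega
  · right; omega

private theorem C6_r0 (h : Fl d v s) (hd : 2 ≤ d) {k : ℕ} (x : X) :
    (R0 d s).Adj x (s (mm d k) x) := by
  rw [h.r0_adj hd]
  unfold mm
  split_ifs with h1
  · right; rfl
  · left; rfl

private theorem C6_key (h : Fl d v s) (hd : 2 ≤ d) {t : Set (Fin d × X)} (ht : t ⊆ Ok d v)
    (hac : ∀ i ∈ t, ¬ (LibHP88.link (R0 d s) (t \ {i}) (fun i => i.2) (fun i => s i.1 i.2)).Reachable i.2 (s i.1 i.2))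
    {i j : Fin d × X} (hi : i ∈ t) (hj : j ∈ t) {y y' : X} (hy : y = i.2 ∨ y = s i.1 i.2)
    (hy' : y' = j.2 ∨ y' = s j.1 j.2) (he : s(y, s (mm d i.1) y) = s(y', s (mm d j.1) y')) : i = j := by
  obtain ⟨k, x⟩ := i
  obtain ⟨k', x'⟩ := j
  obtain ⟨k, hkd⟩ := k
  obtain ⟨k', hkd'⟩ := k'
  obtain ⟨hk3, hok⟩ := ht hi
  obtain ⟨hk3', hok'⟩ := ht hj
  have hacx := hac _ hi
  simp only at hy hy' he hk3 hok hk3' hok' hacx
  obtain ⟨hm2, hmd⟩ := C6_mm hk3
  obtain ⟨hm2', hmd'⟩ := C6_mm hk3'
  -- the colours agree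
  have hm : mm d k = mm d k' := by
    by_contra hne
    rw [Sym2.eq_iff] at he
    rcases he with ⟨h1, h2⟩ | ⟨h1, h2⟩
    · have a1 := h.move (mm d k) hmd y
      rw [h2, ← h1] at a1
      exact a1 (h.keep (mm d k') hmd' (mm d k) hmd hne y)
    · have a1 := h.move (mm d k) hmd y
      apply a1
      rw [h2]
      rw [h1]
      exact (h.keep (mm d k') hmd' (mm d k) hmd hne y').symm
  -- the common vertex
  have hyy : y' = y ∨ y' = s (mm d k) y := by
    rw [Sym2.eq_iff] at he
    rcases he with ⟨h1, h2⟩ | ⟨h1, h2⟩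
    · left; exact h1.symm
    · right; exact h2.symm
  have hkk : k = k' := by
    rcases C6_mm_cases hk3 hk3' hm with h1 | ⟨h1, h2⟩
    · exact h1
    · have o1 : ok d v k y := by
        rcases hy with rfl | rfl
        · exact hok
        · exact h.ok_sk hk3 hok
      have o2 : ok d v k y' := by
        rcases hyy with rfl | rfl
        · exact o1
        · exact h.ok_sm hk3 o1
      have o3 : ok d v k' y' := by
        rcases hy' with rfl | rfl
        · exact hok'
        · exact h.ok_sk hk3' hok'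
      exact ok_unique h1 h2 o2 o3
  subst hkk
  have hss : ∀ z, s k (s k z) = z := fun z => h.s_s hkd z
  have hcm : ∀ z, s (mm d k) (s k z) = s k (s (mm d k) z) := fun z => h.comm hm2 hmd z
  have hx' : x' = x ∨ x' = s k x ∨ x' = s (mm d k) x ∨ x' = s k (s (mm d k) x) := by
    have e1 : x' = y' ∨ x' = s k y' := by
      rcases hy' with h1 | h1
      · left; exact h1.symm
      · right; rw [h1, hss]
    rcases hy with h1 | h1 <;> rcases hyy with h2 | h2 <;> rcases e1 with h3 | h3 <;> subst h1 <;>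
      subst h2 <;> subst h3
    · left; rfl
    · right; left; rfl
    · right; right; left; rfl
    · right; right; right; rfl
    · right; left; rfl
    · left; exact hss _
    · right; right; right; exact hcm _
    · right; right; left
      rw [hcm, hss]
  by_contra hne
  have hjt : ((⟨k, hkd'⟩, x') : Fin d × X) ∈ t \ {((⟨k, hkd⟩, x) : Fin d × X)} := by
    refine ⟨hj, ?_⟩
    intro h0
    exact hne h0.symm
  have hneq : ∀ z, z ≠ s k z := by
    intro z hz
    apply h.move k hkd z
    rw [← hz]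
  apply hacx
  have r1 : (LibHP88.link (R0 d s) (t \ {((⟨k, hkd⟩, x) : Fin d × X)}) (fun i => i.2)
      (fun i => s i.1 i.2)).Adj x (s (mm d k) x) := by
    rw [LibHP88.A3_link_adj]
    left
    exact C6_r0 h hd x
  have r2 : (LibHP88.link (R0 d s) (t \ {((⟨k, hkd⟩, x) : Fin d × X)}) (fun i => i.2)
      (fun i => s i.1 i.2)).Adj (s k x) (s k (s (mm d k) x)) := by
    rw [LibHP88.A3_link_adj]
    left
    rw [← hcm]
    exact C6_r0 h hd (s k x)
  rcases hx' with h1 | h1 | h1 | h1
  · exfalso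
    apply hne
    rw [h1]
  · refine SimpleGraph.Adj.reachable ?_
    rw [LibHP88.A3_link_adj]
    right
    refine ⟨⟨_, hjt, ?_⟩, hneq x⟩
    simp only
    rw [h1, hss]
    exact Sym2.eq_swap
  · refine (SimpleGraph.Adj.reachable r1).trans ?_
    refine SimpleGraph.Reachable.trans ?_ (SimpleGraph.Adj.reachable r2.symm)
    refine SimpleGraph.Adj.reachable ?_
    rw [LibHP88.A3_link_adj]
    right
    refine ⟨⟨_, hjt, ?_⟩, hneq _⟩
    simp only
    rw [h1]
  · refine (SimpleGraph.Adj.reachable r1).trans ?_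
    refine SimpleGraph.Reachable.trans ?_ (SimpleGraph.Adj.reachable r2.symm)
    refine SimpleGraph.Adj.reachable ?_
    rw [LibHP88.A3_link_adj]
    right
    refine ⟨⟨_, hjt, ?_⟩, hneq _⟩
    simp only
    rw [h1, hss]
    exact Sym2.eq_swap

theorem Fl.sq_ne (h : Fl d v s) (hd : 2 ≤ d) {t : Set (Fin d × X)} (ht : t ⊆ Ok d v)
    (hac : ∀ i ∈ t, ¬ (LibHP88.link (R0 d s) (t \ {i}) (fun i => i.2) (fun i => s i.1 i.2)).Reachable i.2 (s i.1 i.2)) :
    ∀ i ∈ t, ∀ j ∈ t, i ≠ j →
      s(i.2, s (mm d i.1) i.2) ≠ s(j.2, s (mm d j.1) j.2) ∧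
      s(i.2, s (mm d i.1) i.2) ≠ s(s j.1 j.2, s j.1 (s (mm d j.1) j.2)) ∧
      s(s i.1 i.2, s i.1 (s (mm d i.1) i.2)) ≠ s(s j.1 j.2, s j.1 (s (mm d j.1) j.2)) := by
  intro i hi j hj hij
  have ci : s i.1 (s (mm d i.1) i.2) = s (mm d i.1) (s i.1 i.2) := by
    obtain ⟨h1, h2⟩ := C6_mm (ht hi).1
    exact (h.comm h1 h2 i.2).symm
  have cj : s j.1 (s (mm d j.1) j.2) = s (mm d j.1) (s j.1 j.2) := by
    obtain ⟨h1, h2⟩ := C6_mm (ht hj).1
    exact (h.comm h1 h2 j.2).symm
  refine ⟨?_, ?_, ?_⟩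
  · intro he
    exact hij (C6_key h hd ht hac hi hj (Or.inl rfl) (Or.inl rfl) he)
  · intro he
    rw [cj] at he
    exact hij (C6_key h hd ht hac hi hj (Or.inl rfl) (Or.inr rfl) he)
  · intro he
    rw [ci, cj] at he
    exact hij (C6_key h hd ht hac hi hj (Or.inr rfl) (Or.inr rfl) he)

end Pool.Agent.LibFL52
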