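import Pool.Agent.LibFL52.C4
import Pool.Agent.LibFL52.C6
import Pool.Agent.LibHP88.A3
import Pool.Agent.LibHP88.A4

/-! Row C5: assembly. -/

set_option autoImplicit false

noncomputable section

open scoped Classical

namespace Pool.Agent.LibFL52

variable {d : ℕ} {X F : Type} {v : ℕ → X → F} {s : ℕ → X → X}

theorem Fl.ham [Fintype X] [DecidableEq X] [Nonempty X] (h : Fl d v s) (hd : 2 ≤ d) (Γ : SimpleGraph X)
    (hΓ : ∀ k < d, ∀ x, Γ.Adj x (s k x)) : Γ.IsHamiltonian := by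
  obtain ⟨t, ht, hconn, hac⟩ := h.exists_min hd
  have hm : ∀ i ∈ t, mm d i.1 < d ∧ (i.1 : ℕ) + 2 ≤ mm d i.1 := by
    intro i hi
    have h1 := (ht hi).1
    unfold mm
    split_ifs <;> omega
  have hR : ∀ x, ∀ i ∈ t, (R0 d s).Adj x (s (mm d i.1) x) := by
    intro x i hi
    rw [h.r0_adj hd]
    unfold mm
    split_ifs
    · exact Or.inr rfl
    · exact Or.inl rfl
  obtain ⟨h2, hr⟩ := LibHP88.plumb_main (h.r0_two hd) t (fun i => i.2) (fun i => s (mm d i.1) i.2)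
    (fun i => s i.1 i.2) (fun i => s i.1 (s (mm d i.1) i.2)) (fun i hi => hR _ i hi)
    (fun i hi => by
      have h3 := hR (s i.1 i.2) i hi
      rw [h.comm (hm i hi).2 (hm i hi).1] at h3
      exact h3)
    (h.sq_ne hd ht hac) hac
  refine LibHP88.ham_of_two ?_ h2 (SimpleGraph.Connected.mk fun x y => (hr x y).2 (hconn x y))
  intro x y hxy
  rw [LibHP88.A3_plumb_adj] at hxy
  obtain ⟨h3, hne⟩ := hxy
  rcases h3 with ⟨h4, -⟩ | ⟨i, hi, h4⟩
  · rw [h.r0_adj hd] at h4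
    rcases h4 with rfl | rfl
    · exact hΓ _ (by omega) _
    · exact hΓ _ (by omega) _
  · have hk : (i.1 : ℕ) < d := i.1.2
    rcases h4 with h4 | h4
    · rcases Sym2.eq_iff.1 h4 with ⟨rfl, rfl⟩ | ⟨rfl, rfl⟩
      · exact hΓ _ hk _
      · exact (hΓ _ hk _).symm
    · rcases Sym2.eq_iff.1 h4 with ⟨rfl, rfl⟩ | ⟨rfl, rfl⟩
      · exact hΓ _ hk _
      · exact (hΓ _ hk _).symm

end Pool.Agent.LibFL52
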