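import Mathlib
import Pool.Agent.LibHP88.Defs

/-! # Flag graphs: definitions

`Fl d v s` is the combinatorial core: the flags `x : X`, their element `v k x` of rank `k < d`, the other flag
`s k x` which differs from `x` only in rank `k`. -/

set_option autoImplicit false

noncomputable section

open scoped Classical

namespace Pool.Agent.LibFL52

/-- flag systems of rank `d` (indices `< d` are used only) -/
structure Fl (d : ℕ) {X F : Type} (v : ℕ → X → F) (s : ℕ → X → X) : Prop where
  keep : ∀ k < d, ∀ j < d, j ≠ k → ∀ x, v j (s k x) = v j x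
  move : ∀ k < d, ∀ x, v k (s k x) ≠ v k x
  uniq : ∀ k < d, ∀ x y, (∀ j < d, j ≠ k → v j y = v j x) → y = x ∨ y = s k x
  mix : ∀ k < d, ∀ x y, v k x = v k y →
    ∃ z, (∀ j ≤ k, v j z = v j x) ∧ ∀ j, k ≤ j → j < d → v j z = v j y
  conn : ∀ k < d, ∀ x y, (∀ j < k, v j x = v j y) →
    Relation.ReflTransGen (fun u w => ∃ j, k ≤ j ∧ j < d ∧ w = s j u) x y

/-- the rank after `j` (the rank `d - 2` is skipped) -/
def nx (d j : ℕ) : ℕ := if j + 3 = d then d - 1 else j + 1

/-- a chosen element of rank `nx d j` above the element `f` of rank `j` -/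
def al {X F : Type} (d : ℕ) (v : ℕ → X → F) (j : ℕ) (f : F) : F :=
  if h : ∃ x, v j x = f then v (nx d j) h.choose else f

/-- the flag `x` follows the choice `al` at rank `j` -/
def hit {X F : Type} (d : ℕ) (v : ℕ → X → F) (j : ℕ) (x : X) : Prop :=
  v (nx d j) x = al d v j (v j x)

/-- the square of colours `k` and `mm d k` at the flag `x` is allowed -/
def ok {X F : Type} (d : ℕ) (v : ℕ → X → F) (k : ℕ) (x : X) : Prop :=
  k + 3 = d ∨ (k + 3 < d ∧ hit d v (k + 1) x ∧ ∀ j, k + 2 ≤ j → j + 3 ≤ d → ¬ hit d v j x)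

/-- the colour of the edges that are used by the squares of level `k` -/
def mm (d k : ℕ) : ℕ := if k + 3 = d then d - 1 else d - 2

/-- the 2-factor: the edges of the colours `d - 2` and `d - 1` -/
def R0 {X : Type} (d : ℕ) (s : ℕ → X → X) : SimpleGraph X :=
  SimpleGraph.fromRel (fun x y => y = s (d - 2) x ∨ y = s (d - 1) x)

/-- the indices of the allowed squares -/
def Ok {X F : Type} (d : ℕ) (v : ℕ → X → F) : Set (Fin d × X) :=
  {i | (i.1 : ℕ) + 3 ≤ d ∧ ok d v i.1 i.2}

/-! ## Polytopes -/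

/-- the space -/
abbrev E (d : ℕ) : Type := EuclideanSpace ℝ (Fin d)

/-- the inequalities which are tight at `x` -/
def T {d : ℕ} {Q : Type} (a : Q → E d) (b : Q → ℝ) (x : E d) : Set Q := {q | inner ℝ (a q) x = b q}

/-- `S` is the set of the vertices of the polytope given by the inequalities `⟨a q, x⟩ ≤ b q`, and every vertex satisfies
exactly `d` of them with equality -/
structure Po {d : ℕ} {Q : Type} (a : Q → E d) (b : Q → ℝ) (S : Finset (E d)) : Prop where
  hull : convexHull ℝ (S : Set (E d)) = {x | ∀ q, inner ℝ (a q) x ≤ b q}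
  vert : ∀ x ∈ S, x ∈ Set.extremePoints ℝ (convexHull ℝ (S : Set (E d)))
  ne : S.Nonempty
  tight : ∀ x ∈ S, (T a b x).ncard = d

/-- `y` is the other end of the edge of `x` that leaves the facet `q` -/
def Nb {d : ℕ} {Q : Type} (a : Q → E d) (b : Q → ℝ) (S : Finset (E d)) (q : Q) (x y : E d) : Prop :=
  y ∈ S ∧ y ≠ x ∧ q ∈ T a b x ∧ T a b x \ {q} ⊆ T a b y

/-- the graph of the polytope with the vertices `S` -/
def gr {d : ℕ} (S : Finset (E d)) : SimpleGraph S :=
  SimpleGraph.fromRel (fun x y : S => IsExposed ℝ (convexHull ℝ (S : Set (E d))) (segment ℝ (x : E d) (y : E d)))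

end Pool.Agent.LibFL52
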