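import Pool.Agent.LibFL52.Defs

/-! Row G1 (MEDIUM). The edge directions at a vertex. ONLY Mathlib and Defs.

Let `x ∈ S`. The linear map `L : E d → (T a b x → ℝ)`, `u ↦ (⟨a q, u⟩)_q`, is injective: if `⟨a q, u⟩ = 0` for all tight `q` then for small `ε > 0` the points `x ± ε u`
satisfy all inequalities (tight ones: unchanged; the others, finitely many, are strict at `x`: take `ε` with `ε |⟨a q, u⟩| ≤ b q - ⟨a q, x⟩`), so they lie in the hull, `x` is in the open segment
between them and is extreme: `u = 0` (`mem_extremePoints`). `T a b x` has `d` elements (`tight`, `Set.ncard`, finite type), so `L` is bijective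
(`LinearMap.injective_iff_surjective_of_finrank_eq_finrank`; `finrank_euclideanSpace_fin`, `Module.finrank_fintype_fun_eq_card`). `w q := L⁻¹ (-e_q)` for tight `q` (0 otherwise), and
`u = ∑ (-⟨a q, u⟩) w q` because both sides have the same image under `L`. -/

set_option autoImplicit false

noncomputable section

open scoped Classical

namespace Pool.Agent.LibFL52

variable {d : ℕ} {Q : Type} [Fintype Q] {a : Q → E d} {b : Q → ℝ} {S : Finset (E d)}

private theorem G1_eps {y u : E d} (hy : ∀ q, inner ℝ (a q) y ≤ b q)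
    (hu : ∀ q ∈ T a b y, inner ℝ (a q) u = 0) :
    ∃ ε : ℝ, 0 < ε ∧ (∀ q, inner ℝ (a q) (y + ε • u) ≤ b q) ∧
      ∀ q, inner ℝ (a q) (y - ε • u) ≤ b q := by
  have hev : ∀ᶠ t : ℝ in nhds 0, ∀ q, inner ℝ (a q) (y + t • u) ≤ b q := by
    rw [Filter.eventually_all]
    intro q
    by_cases hq : inner ℝ (a q) y = b q
    · refine Filter.Eventually.of_forall fun t => ?_
      rw [inner_add_right, inner_smul_right, hu q hq, mul_zero, add_zero]
      exact hy q
    · have hlt : inner ℝ (a q) (y + (0 : ℝ) • u) < b q := by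
        rw [zero_smul, add_zero]
        exact lt_of_le_of_ne (hy q) hq
      have hc : Continuous (fun t : ℝ => (inner ℝ (a q) (y + t • u) : ℝ)) := by fun_prop
      exact (hc.continuousAt.eventually_lt continuousAt_const hlt).mono fun t ht => ht.le
  obtain ⟨ε, hε, hball⟩ := Metric.eventually_nhds_iff.1 hev
  refine ⟨ε / 2, by positivity, fun q => ?_, fun q => ?_⟩
  · refine hball ?_ q
    rw [Real.dist_0_eq_abs, abs_of_pos (by positivity)]
    linarith
  · have h1 : dist (-(ε / 2)) 0 < ε := by
      rw [Real.dist_0_eq_abs, abs_neg, abs_of_pos (by positivity)]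
      linarith
    have h2 := hball h1 q
    rwa [neg_smul, ← sub_eq_add_neg] at h2

private theorem G1_inj (h : Po a b S) {x : E d} (hx : x ∈ S) {u : E d}
    (hu : ∀ q ∈ T a b x, inner ℝ (a q) u = 0) : u = 0 := by
  have hxe := h.vert x hx
  rw [h.hull, mem_extremePoints] at hxe
  obtain ⟨ε, hε, h1, h2⟩ := G1_eps (fun q => hxe.1 q) hu
  have h3 := hxe.2 (x + ε • u) h1 (x - ε • u) h2 (by
    refine ⟨1 / 2, 1 / 2, by norm_num, by norm_num, by norm_num, ?_⟩
    rw [← smul_add]
    have : x + ε • u + (x - ε • u) = (2 : ℝ) • x := by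
      rw [two_smul]
      abel
    rw [this, smul_smul]
    norm_num)
  have h4 : ε • u = 0 := by
    have := h3.1
    simpa using this
  exact (smul_eq_zero.1 h4).resolve_left hε.ne'

theorem Po.dirs (h : Po a b S) {x : E d} (hx : x ∈ S) :
    ∃ w : Q → E d, (∀ p ∈ T a b x, ∀ q ∈ T a b x, inner ℝ (a p) (w q) = if p = q then (-1 : ℝ) else 0) ∧
      ∀ u : E d, u = ∑ q ∈ (T a b x).toFinite.toFinset, (-inner ℝ (a q) u) • w q := by
  let L : E d →ₗ[ℝ] (T a b x → ℝ) := LinearMap.pi fun q => (innerSL ℝ (a q.1)).toLinearMap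
  have hL : ∀ (u : E d) (q : T a b x), L u q = inner ℝ (a q.1) u := fun u q => rfl
  have hinj : Function.Injective L := by
    rw [injective_iff_map_eq_zero]
    intro u hu
    refine G1_inj h hx fun q hq => ?_
    have := congrFun hu ⟨q, hq⟩
    rwa [hL] at this
  have hfr : Module.finrank ℝ (E d) = Module.finrank ℝ (T a b x → ℝ) := by
    rw [finrank_euclideanSpace_fin, Module.finrank_fintype_fun_eq_card, ← Nat.card_eq_fintype_card]
    exact (h.tight x hx).symm
  have hsurj : Function.Surjective L :=
    (LinearMap.injective_iff_surjective_of_finrank_eq_finrank hfr).1 hinj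
  choose g hg using hsurj
  obtain ⟨w, hw⟩ : ∃ w : Q → E d, ∀ q, q ∈ T a b x →
      w q = g (fun p : T a b x => if p.1 = q then (-1 : ℝ) else 0) := ⟨fun q => g _, fun q _ => rfl⟩
  refine ⟨w, ?_, ?_⟩
  · intro p hp q hq
    rw [hw q hq]
    have h1 := congrFun (hg (fun p : T a b x => if p.1 = q then (-1 : ℝ) else 0)) ⟨p, hp⟩
    rw [hL] at h1
    exact h1
  · intro u
    apply hinj
    funext p
    rw [map_sum, Finset.sum_apply, hL, Finset.sum_eq_single p.1]
    · rw [map_smul, Pi.smul_apply, hw _ p.2, hg, smul_eq_mul]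
      simp
    · intro q hq hne
      have hq' : q ∈ T a b x := by simpa using hq
      rw [map_smul, Pi.smul_apply, hw _ hq', hg, if_neg (fun e => hne e.symm), smul_zero]
    · intro hn
      exact absurd (by simpa using p.2) hn

/-- the points of the polytope at which `d` linearly independent inequalities are tight are vertices -/
theorem Po.mem_of (h : Po a b S) {y : E d} (hy : ∀ q, inner ℝ (a q) y ≤ b q)
    (hu : ∀ u : E d, (∀ q ∈ T a b y, inner ℝ (a q) u = 0) → u = 0) : y ∈ S := by
  have hmem : y ∈ convexHull ℝ (S : Set (E d)) := by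
    rw [h.hull]
    exact hy
  have hext : y ∈ Set.extremePoints ℝ (convexHull ℝ (S : Set (E d))) := by
    rw [mem_extremePoints]
    refine ⟨hmem, ?_⟩
    intro x1 h1 x2 h2 hseg
    rw [h.hull] at h1 h2
    obtain ⟨s, t, hs, ht, hst, he⟩ := hseg
    have key : ∀ q ∈ T a b y, inner ℝ (a q) x1 = b q ∧ inner ℝ (a q) x2 = b q := by
      intro q hq
      have e1 : inner ℝ (a q) y = b q := hq
      rw [← he, inner_add_right, inner_smul_right, inner_smul_right] at e1
      have g1 : inner ℝ (a q) x1 ≤ b q := h1 q
      have g2 : inner ℝ (a q) x2 ≤ b q := h2 q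
      constructor
      · refine le_antisymm g1 ?_
        by_contra hlt
        push Not at hlt
        have : s * inner ℝ (a q) x1 + t * inner ℝ (a q) x2 < s * b q + t * b q :=
          add_lt_add_of_lt_of_le (mul_lt_mul_of_pos_left hlt hs)
            (mul_le_mul_of_nonneg_left g2 ht.le)
        rw [← add_mul, hst, one_mul] at this
        exact absurd e1 this.ne
      · refine le_antisymm g2 ?_
        by_contra hlt
        push Not at hlt
        have : s * inner ℝ (a q) x1 + t * inner ℝ (a q) x2 < s * b q + t * b q :=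
          add_lt_add_of_le_of_lt (mul_le_mul_of_nonneg_left g1 hs.le)
            (mul_lt_mul_of_pos_left hlt ht)
        rw [← add_mul, hst, one_mul] at this
        exact absurd e1 this.ne
    have h12 : x1 - x2 = 0 := by
      refine hu _ fun q hq => ?_
      rw [inner_sub_right, (key q hq).1, (key q hq).2, sub_self]
    have h12' : x1 = x2 := sub_eq_zero.1 h12
    have hy1 : y = x1 := by
      rw [← he, ← h12', ← add_smul, hst, one_smul]
    exact ⟨hy1.symm, by rw [← h12']; exact hy1.symm⟩
  exact_mod_cast extremePoints_convexHull_subset hext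

end Pool.Agent.LibFL52
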