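import Pool.Agent.LibFL52.G1

/-! Row G2 (MEDIUM/STRONG). The edges of a simple vertex. ONLY Mathlib, Defs, G1 (`dirs`, `mem_of`).

`tight_inj`: if `T x ⊆ T y` (`x, y ∈ S`): `u = y - x` has `⟨a q, u⟩ = 0` for `q ∈ T x`, so `u = 0` by `dirs`.
`nb_exists`: let `w` be as in `dirs`, `q ∈ T x`, `e = w q`: `⟨a p, e⟩ = 0` for `p ∈ T x`, `p ≠ q`, `⟨a q, e⟩ = -1`. The hull is compact (`Set.Finite.isCompact_convexHull`), `e ≠ 0`, so the set of `t ≥ 0` with
`x + t e` in the polytope is bounded; so some `p` has `⟨a p, e⟩ > 0`; let `t` be the minimum over these `p` of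
`(b p - ⟨a p, x⟩) / ⟨a p, e⟩`, attained at `p0`; such `p` are not tight at `x`, so `t > 0`. `y = x + t e` satisfies all inequalities, and `T y ⊇ (T x \ {q}) ∪ {p0}`. If `⟨a p, u⟩ = 0` for all
`p ∈ T y`: by `dirs` `u = (-⟨a q, u⟩) e`, and `0 = ⟨a p0, u⟩ = (-⟨a q, u⟩) ⟨a p0, e⟩` gives `⟨a q, u⟩ = 0`, `u = 0`. So `y ∈ S` by `mem_of`; `y ≠ x`.
`nb_dir`: if `Nb q x y` then `y - x = (-⟨a q, y - x⟩) w q` by `dirs` (the other coefficients vanish), and `c = -⟨a q, y - x⟩ = b q - ⟨a q, y⟩ ≥ 0`, `≠ 0` as `y ≠ x`.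
`nb_unique`: `y = x + c w q`, `z = x + c' w q`, `c, c' > 0`; say `c < c'`: `y` is in the open segment between `x` and `z`, both in the hull, and `y` is extreme: `y = x`,
contradiction. So `c = c'`. -/

set_option autoImplicit false

noncomputable section

open scoped Classical

namespace Pool.Agent.LibFL52

variable {d : ℕ} {Q : Type} [Fintype Q] {a : Q → E d} {b : Q → ℝ} {S : Finset (E d)}

omit [Fintype Q] in
private theorem G2_sub {x y : E d} {p : Q} (hx : p ∈ T a b x) (hy : p ∈ T a b y) :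
    inner ℝ (a p) (y - x) = 0 := by
  have h1 : inner ℝ (a p) x = b p := hx
  have h2 : inner ℝ (a p) y = b p := hy
  rw [inner_sub_right, h1, h2, sub_self]

omit [Fintype Q] in
private theorem G2_mem (_ : Po a b S) {x : E d} (hx : x ∈ S) :
    x ∈ convexHull ℝ (S : Set (E d)) :=
  subset_convexHull ℝ _ hx

omit [Fintype Q] in
private theorem G2_le (h : Po a b S) {x : E d} (hx : x ∈ S) (p : Q) : inner ℝ (a p) x ≤ b p := by
  have h1 := G2_mem h hx
  rw [h.hull] at h1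
  exact h1 p

/-- a vector which is annihilated by the tight inequalities different from `q` -/
private theorem G2_one {x : E d} {q : Q} (hq : q ∈ T a b x) {w : Q → E d}
    (hw : ∀ u : E d, u = ∑ q ∈ (T a b x).toFinite.toFinset, (-inner ℝ (a q) u) • w q) (u : E d)
    (hu : ∀ p ∈ T a b x, p ≠ q → inner ℝ (a p) u = 0) : u = (-inner ℝ (a q) u) • w q := by
  conv_lhs => rw [hw u]
  refine Finset.sum_eq_single q ?_ ?_
  · intro p hp hpq
    rw [hu p ((Set.Finite.mem_toFinset _).mp hp) hpq, neg_zero, zero_smul]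
  · intro hn
    exact absurd ((Set.Finite.mem_toFinset _).mpr hq) hn

theorem Po.tight_inj (h : Po a b S) {x y : E d} (hx : x ∈ S) (hy : y ∈ S) (hxy : T a b x ⊆ T a b y) : x = y := by
  obtain ⟨w, -, hw⟩ := h.dirs hx
  have h1 : y - x = 0 := by
    rw [hw (y - x)]
    refine Finset.sum_eq_zero fun q hq => ?_
    have hq' : q ∈ T a b x := (Set.Finite.mem_toFinset _).mp hq
    rw [G2_sub hq' (hxy hq'), neg_zero, zero_smul]
  exact (sub_eq_zero.mp h1).symm

theorem Po.nb_exists (h : Po a b S) {x : E d} (hx : x ∈ S) {q : Q} (hq : q ∈ T a b x) : ∃ y, Nb a b S q x y := by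
  obtain ⟨w, hw1, hw2⟩ := h.dirs hx
  have he0 : ∀ p ∈ T a b x, p ≠ q → inner ℝ (a p) (w q) = 0 := fun p hp hpq => by
    rw [hw1 p hp q hq, if_neg hpq]
  have heq : inner ℝ (a q) (w q) = (-1 : ℝ) := by rw [hw1 q hq q hq, if_pos rfl]
  have hene : w q ≠ 0 := by
    intro h0
    rw [h0, inner_zero_right] at heq
    norm_num at heq
  have hpos : ∃ p, 0 < inner ℝ (a p) (w q) := by
    by_contra hcon
    have hcon' : ∀ p, inner ℝ (a p) (w q) ≤ 0 := fun p => not_lt.mp fun hp => hcon ⟨p, hp⟩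
    have hb : Bornology.IsBounded (convexHull ℝ (S : Set (E d))) :=
      (Set.Finite.isCompact_convexHull ℝ S.finite_toSet).isBounded
    obtain ⟨R, hR⟩ := hb.exists_norm_le
    have hx0 : ‖x‖ ≤ R := hR x (G2_mem h hx)
    have hR0 : 0 ≤ R := (norm_nonneg x).trans hx0
    have hn : 0 < ‖w q‖ := norm_pos_iff.mpr hene
    have h2 : x + ((R + ‖x‖ + 1) / ‖w q‖) • w q ∈ convexHull ℝ (S : Set (E d)) := by
      rw [h.hull]
      intro p
      rw [inner_add_right, inner_smul_right]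
      have h3 := G2_le h hx p
      have h4 : (R + ‖x‖ + 1) / ‖w q‖ * inner ℝ (a p) (w q) ≤ 0 :=
        mul_nonpos_of_nonneg_of_nonpos (by positivity) (hcon' p)
      linarith
    have h5 := hR _ h2
    have h6 : ‖((R + ‖x‖ + 1) / ‖w q‖) • w q‖ = R + ‖x‖ + 1 := by
      rw [norm_smul, Real.norm_of_nonneg (by positivity)]
      field_simp
    have h7 : ‖((R + ‖x‖ + 1) / ‖w q‖) • w q‖ ≤ ‖x + ((R + ‖x‖ + 1) / ‖w q‖) • w q‖ + ‖x‖ := by
      calc ‖((R + ‖x‖ + 1) / ‖w q‖) • w q‖ =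
          ‖(x + ((R + ‖x‖ + 1) / ‖w q‖) • w q) - x‖ := by rw [add_sub_cancel_left]
        _ ≤ _ := norm_sub_le _ _
    rw [h6] at h7
    linarith
  have hFne : (Finset.univ.filter fun p => 0 < inner ℝ (a p) (w q)).Nonempty := by
    obtain ⟨p, hp⟩ := hpos
    exact ⟨p, Finset.mem_filter.mpr ⟨Finset.mem_univ _, hp⟩⟩
  obtain ⟨p0, hp0, hmin⟩ := Finset.exists_min_image _
    (fun p => (b p - inner ℝ (a p) x) / inner ℝ (a p) (w q)) hFne
  have hp0' : 0 < inner ℝ (a p0) (w q) := (Finset.mem_filter.mp hp0).2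
  have hnt : p0 ∉ T a b x := by
    intro hmem
    by_cases hpq : p0 = q
    · rw [hpq, heq] at hp0'
      norm_num at hp0'
    · rw [he0 p0 hmem hpq] at hp0'
      exact lt_irrefl _ hp0'
  have hlt : inner ℝ (a p0) x < b p0 := lt_of_le_of_ne (G2_le h hx p0) fun hh => hnt hh
  have ht : 0 < (b p0 - inner ℝ (a p0) x) / inner ℝ (a p0) (w q) :=
    div_pos (sub_pos.mpr hlt) hp0'
  obtain ⟨t, htdef⟩ : ∃ t : ℝ, t = (b p0 - inner ℝ (a p0) x) / inner ℝ (a p0) (w q) := ⟨_, rfl⟩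
  rw [← htdef] at ht
  have hval : ∀ p, inner ℝ (a p) (x + t • w q) = inner ℝ (a p) x + t * inner ℝ (a p) (w q) :=
    fun p => by rw [inner_add_right, inner_smul_right]
  have hle : ∀ p, inner ℝ (a p) (x + t • w q) ≤ b p := by
    intro p
    rw [hval]
    by_cases hp : 0 < inner ℝ (a p) (w q)
    · have h1 := hmin p (Finset.mem_filter.mpr ⟨Finset.mem_univ _, hp⟩)
      rw [← htdef, le_div_iff₀ hp] at h1
      linarith
    · have h1 := G2_le h hx p
      have h2 : t * inner ℝ (a p) (w q) ≤ 0 :=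
        mul_nonpos_of_nonneg_of_nonpos ht.le (not_lt.mp hp)
      linarith
  have hT1 : T a b x \ {q} ⊆ T a b (x + t • w q) := by
    rintro p ⟨hp, hpq⟩
    change inner ℝ (a p) (x + t • w q) = b p
    have hp' : inner ℝ (a p) x = b p := hp
    rw [hval, he0 p hp hpq, mul_zero, add_zero, hp']
  have hT2 : p0 ∈ T a b (x + t • w q) := by
    change inner ℝ (a p0) (x + t • w q) = b p0
    rw [hval, htdef, div_mul_cancel₀ _ hp0'.ne']
    ring
  have hS : x + t • w q ∈ S := by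
    refine h.mem_of hle fun u hu => ?_
    have h1 := G2_one hq hw2 u fun p hp hpq => hu p (hT1 ⟨hp, hpq⟩)
    have h2 := hu p0 hT2
    rw [h1, inner_smul_right] at h2
    rcases mul_eq_zero.mp h2 with h3 | h3
    · rw [h1, h3, zero_smul]
    · exact absurd h3 hp0'.ne'
  refine ⟨x + t • w q, hS, ?_, hq, hT1⟩
  intro hh
  have h1 : t • w q = 0 := by
    have := add_eq_left.mp hh
    exact this
  rcases smul_eq_zero.mp h1 with h2 | h2
  · exact ht.ne' h2
  · exact hene h2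

theorem Po.nb_dir (h : Po a b S) {x y : E d} (hx : x ∈ S) {q : Q} (hy : Nb a b S q x y) {w : Q → E d}
    (hw : ∀ u : E d, u = ∑ q ∈ (T a b x).toFinite.toFinset, (-inner ℝ (a q) u) • w q) :
    ∃ c : ℝ, 0 < c ∧ y = x + c • w q := by
  obtain ⟨hyS, hyx, hq, hsub⟩ := hy
  have h1 := G2_one hq hw (y - x) fun p hp hpq => G2_sub hp (hsub ⟨hp, hpq⟩)
  have hxq : inner ℝ (a q) x = b q := hq
  have h2 : 0 ≤ -inner ℝ (a q) (y - x) := by
    rw [inner_sub_right, hxq]
    have := G2_le h hyS q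
    linarith
  have h3 : -inner ℝ (a q) (y - x) ≠ 0 := by
    intro h0
    rw [h0, zero_smul] at h1
    exact hyx (sub_eq_zero.mp h1)
  refine ⟨-inner ℝ (a q) (y - x), lt_of_le_of_ne h2 h3.symm, ?_⟩
  rw [← h1]
  abel

omit [Fintype Q] in
private theorem G2_ext (h : Po a b S) {x y z v : E d} (hx : x ∈ S) (hy : y ∈ S) (hz : z ∈ S)
    {c c' : ℝ} (hc : 0 < c) (hcc : c < c') (h1 : y = x + c • v) (h2 : z = x + c' • v) : x = y := by
  have hext := h.vert y hy
  rw [mem_extremePoints] at hext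
  have hc' : 0 < c' := hc.trans hcc
  have hseg : y ∈ openSegment ℝ x z := by
    refine ⟨1 - c / c', c / c', ?_, div_pos hc hc', by ring, ?_⟩
    · rw [sub_pos, div_lt_one hc']
      exact hcc
    · rw [h1, h2, smul_add, smul_smul, div_mul_cancel₀ _ hc'.ne', sub_smul, one_smul]
      abel
  exact (hext.2 x (G2_mem h hx) z (G2_mem h hz) hseg).1

theorem Po.nb_unique (h : Po a b S) {x y z : E d} (hx : x ∈ S) {q : Q} (hy : Nb a b S q x y) (hz : Nb a b S q x z) :
    y = z := by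
  obtain ⟨w, -, hw⟩ := h.dirs hx
  obtain ⟨c, hc, hyc⟩ := h.nb_dir hx hy hw
  obtain ⟨c', hc', hzc⟩ := h.nb_dir hx hz hw
  rcases lt_trichotomy c c' with hlt | heq | hgt
  · exact absurd (G2_ext h hx hy.1 hz.1 hc hlt hyc hzc) (fun hh => hy.2.1 hh.symm)
  · rw [hyc, hzc, heq]
  · exact absurd (G2_ext h hx hz.1 hy.1 hc' hgt hzc hyc) (fun hh => hz.2.1 hh.symm)

end Pool.Agent.LibFL52
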