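import Pool.Agent.LibFL52.G2

/-! Row G3 (MEDIUM). The simplex method inside a face. ONLY Mathlib, Defs, G1, G2.

Let `ℓ z = ∑ (p ∈ T y) ⟨a p, z⟩`. On the polytope `ℓ z ≤ ∑ (p ∈ T y) b p = ℓ y` and equality implies `T y ⊆ T z`, so `z = y` for `z ∈ S` (`tight_inj`). Step: for `z ∈ S`, `C ⊆ T z`, `z ≠ y`
there are `q ∈ T z \ C` and `z'` with `Nb q z z'` and `ℓ z < ℓ z'`: with `w` from `dirs` at `z`, `y - z = ∑ (-⟨a q, y - z⟩) w q`, the coefficients
`b q - ⟨a q, y⟩` are `≥ 0`, and `0` for `q ∈ C` (`C ⊆ T y`); `ℓ (y - z) > 0` so some `q` has coefficient `> 0` and `ℓ (w q) > 0`; `q ∉ C`; `nb_exists`, `nb_dir`: `z' = z + c w q`.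
`C ⊆ T z'` because `C ⊆ T z \ {q}`. Now induct (`S` finite: strong induction on the number of `u ∈ S` with `ℓ u > ℓ z`). -/

set_option autoImplicit false

noncomputable section

open scoped Classical

namespace Pool.Agent.LibFL52

variable {d : ℕ} {Q : Type} [Fintype Q] {a : Q → E d} {b : Q → ℝ} {S : Finset (E d)}

/-- the linear functional which is maximal at `y` -/
private def G3_l (a : Q → E d) (b : Q → ℝ) (y z : E d) : ℝ :=
  ∑ p ∈ (T a b y).toFinite.toFinset, inner ℝ (a p) z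

private theorem G3_mem (h : Po a b S) {z : E d} (hz : z ∈ S) (q : Q) : inner ℝ (a q) z ≤ b q := by
  have h1 : z ∈ convexHull ℝ (S : Set (E d)) := subset_convexHull ℝ _ (Finset.mem_coe.mpr hz)
  rw [h.hull] at h1
  exact h1 q

private theorem G3_add (y u v : E d) : G3_l a b y (u + v) = G3_l a b y u + G3_l a b y v := by
  unfold G3_l
  rw [← Finset.sum_add_distrib]
  exact Finset.sum_congr rfl fun p _ => inner_add_right _ _ _

private theorem G3_smul (y : E d) (c : ℝ) (u : E d) : G3_l a b y (c • u) = c * G3_l a b y u := by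
  unfold G3_l
  rw [Finset.mul_sum]
  exact Finset.sum_congr rfl fun p _ => real_inner_smul_right _ _ _

private theorem G3_sum (y : E d) (R : Finset Q) (c : Q → ℝ) (w : Q → E d) :
    G3_l a b y (∑ q ∈ R, c q • w q) = ∑ q ∈ R, c q * G3_l a b y (w q) := by
  unfold G3_l
  simp only [inner_sum, real_inner_smul_right, Finset.mul_sum]
  exact Finset.sum_comm

private theorem G3_pos (h : Po a b S) {y z : E d} (hy : y ∈ S) (hz : z ∈ S) (hzy : z ≠ y) :
    0 < G3_l a b y (y - z) := by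
  have h0 : ∀ p ∈ (T a b y).toFinite.toFinset, 0 ≤ inner ℝ (a p) (y - z) := by
    intro p hp
    have hp' : inner ℝ (a p) y = b p := by
      have h9 : p ∈ T a b y := (Set.Finite.mem_toFinset _).mp hp
      exact h9
    rw [inner_sub_right, hp']
    linarith [G3_mem h hz p]
  refine lt_of_le_of_ne (Finset.sum_nonneg h0) fun h1 => hzy ?_
  have h2 := (Finset.sum_eq_zero_iff_of_nonneg h0).mp h1.symm
  refine (h.tight_inj hy hz fun p hp => ?_).symm
  have h3 := h2 p ((Set.Finite.mem_toFinset _).mpr hp)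
  have hp' : inner ℝ (a p) y = b p := hp
  rw [inner_sub_right, hp'] at h3
  show inner ℝ (a p) z = b p
  linarith

private theorem G3_step (h : Po a b S) {C : Set Q} {y z : E d} (hy : y ∈ S) (hz : z ∈ S) (hCy : C ⊆ T a b y)
    (hCz : C ⊆ T a b z) (hzy : z ≠ y) :
    ∃ z', z' ∈ S ∧ C ⊆ T a b z' ∧ (∃ q, q ∉ C ∧ Nb a b S q z z') ∧ G3_l a b y z < G3_l a b y z' := by
  obtain ⟨w, -, hw⟩ := h.dirs hz
  have h1 := G3_pos h hy hz hzy
  rw [hw (y - z), G3_sum] at h1
  obtain ⟨q, hq, hq0⟩ : ∃ q ∈ (T a b z).toFinite.toFinset,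
      0 < -inner ℝ (a q) (y - z) * G3_l a b y (w q) := by
    by_contra hcon
    push Not at hcon
    exact absurd (Finset.sum_nonpos hcon) (not_le.mpr h1)
  have hqz : q ∈ T a b z := (Set.Finite.mem_toFinset _).mp hq
  have hqz' : inner ℝ (a q) z = b q := hqz
  have hc : 0 ≤ -inner ℝ (a q) (y - z) := by
    rw [inner_sub_right, hqz']
    linarith [G3_mem h hy q]
  have hc' : 0 < -inner ℝ (a q) (y - z) := by
    rcases hc.lt_or_eq with h2 | h2
    · exact h2
    · exfalso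
      rw [← h2, zero_mul] at hq0
      exact lt_irrefl _ hq0
  have hl : 0 < G3_l a b y (w q) := (mul_pos_iff_of_pos_left hc').mp hq0
  have hqC : q ∉ C := by
    intro hqC
    have h2 : inner ℝ (a q) y = b q := hCy hqC
    rw [inner_sub_right, hqz', h2] at hc'
    linarith
  obtain ⟨z', hz'⟩ := h.nb_exists hz hqz
  obtain ⟨c, hc0, hc1⟩ := h.nb_dir hz hz' hw
  refine ⟨z', hz'.1, fun p hp => hz'.2.2.2 ⟨hCz hp, fun h2 => hqC ?_⟩, ⟨q, hqC, hz'⟩, ?_⟩
  · rw [Set.mem_singleton_iff] at h2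
    rw [← h2]
    exact hp
  · rw [hc1, G3_add, G3_smul]
    have := mul_pos hc0 hl
    linarith

theorem Po.path (h : Po a b S) {C : Set Q} {x y : E d} (hx : x ∈ S) (hy : y ∈ S) (hCx : C ⊆ T a b x) (hCy : C ⊆ T a b y) :
    Relation.ReflTransGen (fun u u' => u ∈ S ∧ u' ∈ S ∧ C ⊆ T a b u ∧ ∃ q, q ∉ C ∧ Nb a b S q u u') x y := by
  obtain ⟨n, hn⟩ : ∃ n, n = (S.filter fun u => G3_l a b y x < G3_l a b y u).card := ⟨_, rfl⟩
  induction n using Nat.strong_induction_on generalizing x with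
  | _ n ih =>
    by_cases hxy : x = y
    · rw [hxy]
    · obtain ⟨z, hz, hCz, ⟨q, hq, hN⟩, hl⟩ := G3_step h hy hx hCy hCx hxy
      refine Relation.ReflTransGen.head ⟨hx, hz, hCx, q, hq, hN⟩ (ih _ ?_ hz hCz rfl)
      rw [hn]
      refine Finset.card_lt_card (Finset.ssubset_iff_subset_ne.mpr ⟨fun u hu => ?_, fun h2 => ?_⟩)
      · rw [Finset.mem_filter] at hu ⊢
        exact ⟨hu.1, hl.trans hu.2⟩
      · have h3 : z ∈ S.filter fun u => G3_l a b y x < G3_l a b y u := Finset.mem_filter.mpr ⟨hz, hl⟩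
        rw [← h2, Finset.mem_filter] at h3
        exact lt_irrefl _ h3.2

end Pool.Agent.LibFL52
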