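import Pool.Agent.LibFL52.G2

/-! Row G4 (MEDIUM). Edges are exposed. ONLY Mathlib, Defs, G1, G2. (Compare `face` in LibFF40/G2.lean and `edge` in LibFF40/G4.lean: the same argument
for another structure `Pol`; copy and adapt.)

Let `J = T x \ {q}` (finite), `l = ∑ (p ∈ J) ⟨a p, .⟩` (innerSL). On the hull `l ≤ ∑ (p ∈ J) b p`, with equality iff all inequalities of `J` are tight.
If `z` is in the hull with `J ⊆ T z`: write `z = ∑ w_v v`, `w_v ≥ 0`, `∑ w_v = 1` (`Finset.mem_convexHull'`); for `w_v > 0` all inequalities of `J` are tight at `v`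
(a weighted sum of nonnegative slacks that is zero), so `v = x` or `Nb q x v`, that is `v = x` or `v = y` (`nb_unique`): `z ∈ segment x y`. Conversely the points of the segment have `J`
tight. IsExposed: `fun _ => ⟨l, ext ...⟩`, the set of the maximizers. `gr_adj`: `fromRel_adj`. -/

set_option autoImplicit false

noncomputable section

open scoped Classical

namespace Pool.Agent.LibFL52

variable {d : ℕ} {Q : Type} [Fintype Q] {a : Q → E d} {b : Q → ℝ} {S : Finset (E d)}

omit [Fintype Q] in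
private theorem G4_face (h : Po a b S) (z : E d) (hz : z ∈ convexHull ℝ (S : Set (E d))) :
    z ∈ convexHull ℝ {v : E d | v ∈ S ∧ T a b z ⊆ T a b v} := by
  have hin : ∀ {w : E d}, w ∈ convexHull ℝ (S : Set (E d)) → ∀ i, inner ℝ (a i) w ≤ b i := by
    intro w hw
    rw [h.hull] at hw
    exact hw
  obtain ⟨w, hw0, hw1, hwy⟩ := Finset.mem_convexHull'.1 hz
  have hsl : ∀ i, b i - inner ℝ (a i) z = ∑ v ∈ S, w v * (b i - inner ℝ (a i) v) := by
    intro i
    have h1 : inner ℝ (a i) z = ∑ v ∈ S, w v * inner ℝ (a i) v := by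
      rw [← hwy, inner_sum]
      exact Finset.sum_congr rfl fun v _ => inner_smul_right _ _ _
    have h2 : b i = ∑ v ∈ S, w v * b i := by rw [← Finset.sum_mul, hw1, one_mul]
    rw [h1]
    conv_lhs => rw [h2]
    rw [← Finset.sum_sub_distrib]
    exact Finset.sum_congr rfl fun v _ => by ring
  have hsp : ∀ v ∈ S, w v ≠ 0 → T a b z ⊆ T a b v := by
    intro v hv hwv i hi
    have hi' : inner ℝ (a i) z = b i := hi
    have h0 : ∑ v ∈ S, w v * (b i - inner ℝ (a i) v) = 0 := by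
      rw [← hsl i, hi', sub_self]
    have h1 := (Finset.sum_eq_zero_iff_of_nonneg (fun u hu => mul_nonneg (hw0 u hu)
      (sub_nonneg.2 (hin (subset_convexHull ℝ _ hu) i)))).1 h0 v hv
    rcases mul_eq_zero.1 h1 with h2 | h2
    · exact absurd h2 hwv
    · show inner ℝ (a i) v = b i
      linarith
  have hmem : z ∈ convexHull ℝ ((S.filter fun v => w v ≠ 0 : Finset (E d)) : Set (E d)) := by
    refine Finset.mem_convexHull'.2 ⟨w, fun v hv => hw0 v (Finset.mem_filter.1 hv).1, ?_, ?_⟩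
    · rw [← hw1]
      exact Finset.sum_filter_ne_zero S
    · rw [← hwy]
      refine Finset.sum_subset (Finset.filter_subset _ S) fun v hv hv2 => ?_
      have h1 : w v = 0 := by
        by_contra h2
        exact hv2 (Finset.mem_filter.2 ⟨hv, h2⟩)
      rw [h1, zero_smul]
  refine convexHull_mono ?_ hmem
  intro v hv
  rw [Finset.mem_coe, Finset.mem_filter] at hv
  exact ⟨hv.1, hsp v hv.1 hv.2⟩

theorem Po.exposed (h : Po a b S) {x y : E d} (hx : x ∈ S) {q : Q} (hy : Nb a b S q x y) :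
    IsExposed ℝ (convexHull ℝ (S : Set (E d))) (segment ℝ x y) := by
  intro _
  obtain ⟨J, hJ⟩ : ∃ J : Finset Q, J = (T a b x \ {q}).toFinite.toFinset := ⟨_, rfl⟩
  have hJm : ∀ {i : Q}, i ∈ J ↔ i ∈ T a b x \ {q} := by
    intro i
    rw [hJ, Set.Finite.mem_toFinset]
  have hin : ∀ {w : E d}, w ∈ convexHull ℝ (S : Set (E d)) → ∀ i, inner ℝ (a i) w ≤ b i := by
    intro w hw
    rw [h.hull] at hw
    exact hw
  have hvC : x ∈ convexHull ℝ (S : Set (E d)) := subset_convexHull ℝ _ hx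
  have hvC' : y ∈ convexHull ℝ (S : Set (E d)) := subset_convexHull ℝ _ hy.1
  have hl : ∀ u : E d, (∑ i ∈ J, innerSL ℝ (a i)) u = ∑ i ∈ J, inner ℝ (a i) u := by
    intro u
    rw [_root_.sum_apply]
    rfl
  have hlv : (∑ i ∈ J, innerSL ℝ (a i)) x = ∑ i ∈ J, b i := by
    rw [hl]
    exact Finset.sum_congr rfl fun i hi => (hJm.1 hi).1
  have hlv' : (∑ i ∈ J, innerSL ℝ (a i)) y = ∑ i ∈ J, b i := by
    rw [hl]
    exact Finset.sum_congr rfl fun i hi => hy.2.2.2 (hJm.1 hi)
  refine ⟨∑ i ∈ J, innerSL ℝ (a i), ?_⟩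
  ext z
  constructor
  · intro hz
    refine ⟨(convex_convexHull ℝ _).segment_subset hvC hvC' hz, fun u hu => ?_⟩
    obtain ⟨α, β, _, _, hαβ, rfl⟩ := hz
    rw [map_add, map_smul, map_smul, hlv, hlv', hl, ← add_smul, hαβ, one_smul]
    exact Finset.sum_le_sum fun i _ => hin hu i
  · rintro ⟨hzC, hz⟩
    have h1 := hz x hvC
    rw [hlv, hl] at h1
    have h2 : ∑ i ∈ J, inner ℝ (a i) z ≤ ∑ i ∈ J, b i := Finset.sum_le_sum fun i _ => hin hzC i
    have h3 := (Finset.sum_eq_sum_iff_of_le (fun i (_ : i ∈ J) => hin hzC i)).1 (le_antisymm h2 h1)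
    have h4 : T a b x \ {q} ⊆ T a b z := fun i hi => h3 i (hJm.2 hi)
    have h5 := G4_face h z hzC
    rw [← convexHull_pair]
    refine convexHull_mono ?_ h5
    rintro v ⟨hvS, hv⟩
    by_cases hvx : v = x
    · exact Or.inl hvx
    · have h6 : Nb a b S q x v := ⟨hvS, hvx, hy.2.2.1, h4.trans hv⟩
      exact Or.inr (h.nb_unique hx h6 hy)

theorem Po.gr_adj (h : Po a b S) (x y : S) {q : Q} (hy : Nb a b S q (x : E d) (y : E d)) : (gr S).Adj x y := by
  unfold gr
  rw [SimpleGraph.fromRel_adj]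
  refine ⟨fun hxy => hy.2.1 ?_, Or.inl (h.exposed x.2 hy)⟩
  rw [hxy]

end Pool.Agent.LibFL52
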