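import Pool.Agent.LibFL52.Defs

/-! Row H1 (MEDIUM). Ranks in the poset. ONLY Mathlib and Defs. (No geometry: `𝓣` is a set of subsets of a finite poset, the flags.)

`𝓣`: all members have `d` elements, and a set is contained in a member iff it is a chain.
`rank_eq`: let `A, B ∈ 𝓣`, `q ∈ A ∩ B`. Suppose `#{p ∈ A | p < q} < #{p ∈ B | p < q}`. The set `{p ∈ B | p ≤ q} ∪ {p ∈ A | q ≤ p}` is a chain (transitivity), so contained in a member `D`, `#D = d`; its number of elements is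
`(#{p ∈ B | p < q} + 1) + (d - #{p ∈ A | p < q} - 1) > d` (in the chain `A` every `p` is `< q`, `= q` or `> q`): contradiction.
`nth`: in a chain `A` with `d` elements for `k < d` there is exactly one `q ∈ A` with exactly `k` smaller elements in `A` (the map `q ↦ #{p ∈ A | p < q}` is strictly monotone on the chain, so
injective into `{0..d-1}`; `#A = d`: bijective).
`glue`: `A, B ∈ 𝓣`, `q ∈ A ∩ B`: the set `D0 = {p ∈ A | p ≤ q} ∪ {p ∈ B | q ≤ p}` is a chain with exactly `d` elements (by `rank_eq`), so it is a member of `𝓣` (it is contained in a member with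
`d` elements). -/

set_option autoImplicit false

noncomputable section

open scoped Classical

namespace Pool.Agent.LibFL52

/-- the maximal chains of a finite poset, all of the same length `d` -/
structure Ch {Q : Type} [Fintype Q] [PartialOrder Q] (d : ℕ) (𝓣 : Set (Set Q)) : Prop where
  card : ∀ A ∈ 𝓣, A.ncard = d
  chain : ∀ C : Set Q, (∃ A ∈ 𝓣, C ⊆ A) ↔ IsChain (· ≤ ·) C

/-- the number of elements of `A` below `q` -/
def rk {Q : Type} [Fintype Q] [PartialOrder Q] (A : Set Q) (q : Q) : ℕ := {p | p ∈ A ∧ p < q}.ncard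

variable {d : ℕ} {Q : Type} [Fintype Q] [PartialOrder Q] {𝓣 : Set (Set Q)}

private theorem H1_chain (h : Ch d 𝓣) {A : Set Q} (hA : A ∈ 𝓣) : IsChain (· ≤ ·) A :=
  (h.chain A).1 ⟨A, hA, subset_rfl⟩

private theorem H1_tot (h : Ch d 𝓣) {A : Set Q} (hA : A ∈ 𝓣) {p q : Q} (hp : p ∈ A) (hq : q ∈ A) :
    p ≤ q ∨ q ≤ p :=
  (H1_chain h hA).total hp hq

private theorem H1_lt {A : Set Q} {p q : Q} (hp : p ∈ A) (hpq : p < q) : rk A p < rk A q := by
  unfold rk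
  apply Set.ncard_lt_ncard _ (Set.toFinite _)
  refine ⟨fun r hr => ⟨hr.1, hr.2.trans hpq⟩, fun hsub => ?_⟩
  have := hsub (show p ∈ {p | p ∈ A ∧ p < q} from ⟨hp, hpq⟩)
  exact lt_irrefl _ this.2

private theorem H1_le (h : Ch d 𝓣) {A : Set Q} (hA : A ∈ 𝓣) {p q : Q} (hp : p ∈ A) (hq : q ∈ A)
    (hpq : rk A p ≤ rk A q) : p ≤ q := by
  rcases H1_tot h hA hp hq with h1 | h1
  · exact h1
  · rcases h1.lt_or_eq with h2 | h2
    · exact absurd (H1_lt hq h2) (by omega)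
    · exact h2.ge

/-- the number of elements above `q` -/
private theorem H1_up (h : Ch d 𝓣) {A : Set Q} (hA : A ∈ 𝓣) {q : Q} (hq : q ∈ A) :
    {p | p ∈ A ∧ q < p}.ncard + rk A q + 1 = d := by
  have h1 : A = ({p | p ∈ A ∧ q < p} ∪ {p | p ∈ A ∧ p < q}) ∪ {q} := by
    ext p
    constructor
    · intro hp
      rcases H1_tot h hA hp hq with h2 | h2
      · rcases h2.lt_or_eq with h3 | h3
        · exact Or.inl (Or.inr ⟨hp, h3⟩)
        · exact Or.inr h3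
      · rcases h2.lt_or_eq with h3 | h3
        · exact Or.inl (Or.inl ⟨hp, h3⟩)
        · exact Or.inr h3.symm
    · rintro ((h2 | h2) | h2)
      · exact h2.1
      · exact h2.1
      · rw [Set.mem_singleton_iff.1 h2]; exact hq
  have h2 := h.card A hA
  rw [h1, Set.ncard_union_eq _ (Set.toFinite _) (Set.toFinite _), Set.ncard_union_eq _ (Set.toFinite _) (Set.toFinite _),
    Set.ncard_singleton] at h2
  · exact h2
  · rw [Set.disjoint_left]
    rintro p ⟨_, h3⟩ ⟨_, h4⟩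
    exact lt_asymm h3 h4
  · rw [Set.disjoint_left]
    rintro p (⟨_, h3⟩ | ⟨_, h3⟩) h4
    · rw [Set.mem_singleton_iff.1 h4] at h3; exact lt_irrefl _ h3
    · rw [Set.mem_singleton_iff.1 h4] at h3; exact lt_irrefl _ h3

private theorem H1_glue0 (h : Ch d 𝓣) {A B : Set Q} (hA : A ∈ 𝓣) (hB : B ∈ 𝓣) {q : Q} (hqA : q ∈ A) (hqB : q ∈ B) :
    ∃ D ∈ 𝓣, {p | p ∈ A ∧ p ≤ q} ∪ {p | p ∈ B ∧ q < p} ⊆ D := by
  rw [h.chain]
  intro x hx y hy _
  rcases hx with ⟨hx, hx'⟩ | ⟨hx, hx'⟩ <;> rcases hy with ⟨hy, hy'⟩ | ⟨hy, hy'⟩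
  · exact H1_tot h hA hx hy
  · exact Or.inl (hx'.trans hy'.le)
  · exact Or.inr (hy'.trans hx'.le)
  · exact H1_tot h hB hx hy

private theorem H1_rank_le (h : Ch d 𝓣) {A B : Set Q} (hA : A ∈ 𝓣) (hB : B ∈ 𝓣) {q : Q} (hqA : q ∈ A) (hqB : q ∈ B) :
    rk A q ≤ rk B q := by
  obtain ⟨D, hD, hsub⟩ := H1_glue0 h hA hB hqA hqB
  have h1 := Set.ncard_le_ncard hsub (Set.toFinite _)
  rw [h.card D hD, Set.ncard_union_eq _ (Set.toFinite _) (Set.toFinite _)] at h1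
  · have h2 := H1_up h hB hqB
    have h3 : {p | p ∈ A ∧ p ≤ q} = insert q {p | p ∈ A ∧ p < q} := by
      ext p
      constructor
      · rintro ⟨h4, h5⟩
        rcases h5.lt_or_eq with h6 | h6
        · exact Or.inr ⟨h4, h6⟩
        · exact Or.inl h6
      · rintro (h4 | h4)
        · rw [h4]; exact ⟨hqA, le_rfl⟩
        · exact ⟨h4.1, h4.2.le⟩
    rw [h3, Set.ncard_insert_of_notMem (fun h4 => lt_irrefl _ h4.2) (Set.toFinite _)] at h1
    unfold rk at h2 ⊢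
    omega
  · rw [Set.disjoint_left]
    rintro p ⟨_, h3⟩ ⟨_, h4⟩
    exact absurd (lt_of_lt_of_le h4 h3) (lt_irrefl _)

theorem Ch.rank_eq (h : Ch d 𝓣) {A B : Set Q} (hA : A ∈ 𝓣) (hB : B ∈ 𝓣) {q : Q} (hqA : q ∈ A) (hqB : q ∈ B) :
    rk A q = rk B q :=
  le_antisymm (H1_rank_le h hA hB hqA hqB) (H1_rank_le h hB hA hqB hqA)

private theorem H1_inj (h : Ch d 𝓣) {A : Set Q} (hA : A ∈ 𝓣) {p q : Q} (hp : p ∈ A) (hq : q ∈ A) (hpq : rk A p = rk A q) :
    p = q :=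
  le_antisymm (H1_le h hA hp hq hpq.le) (H1_le h hA hq hp hpq.ge)

private theorem H1_rk_lt (h : Ch d 𝓣) {A : Set Q} (hA : A ∈ 𝓣) {q : Q} (hq : q ∈ A) : rk A q < d := by
  have := H1_up h hA hq
  omega

theorem Ch.nth (h : Ch d 𝓣) {A : Set Q} (hA : A ∈ 𝓣) {k : ℕ} (hk : k < d) : ∃ q ∈ A, rk A q = k := by
  have h1 : (A.toFinset.image (rk A)) = Finset.range d := by
    apply Finset.eq_of_subset_of_card_le
    · intro j hj
      rw [Finset.mem_image] at hj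
      obtain ⟨q, hq, rfl⟩ := hj
      rw [Finset.mem_range]
      exact H1_rk_lt h hA (Set.mem_toFinset.1 hq)
    · rw [Finset.card_range, Finset.card_image_of_injOn, ← Set.ncard_eq_toFinset_card', h.card A hA]
      intro p hp q hq hpq
      exact H1_inj h hA (by simpa using hp) (by simpa using hq) hpq
  have h2 : k ∈ A.toFinset.image (rk A) := by
    rw [h1]
    exact Finset.mem_range.2 hk
  rw [Finset.mem_image] at h2
  obtain ⟨q, hq, h3⟩ := h2
  exact ⟨q, Set.mem_toFinset.1 hq, h3⟩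

theorem Ch.rk_inj (h : Ch d 𝓣) {A : Set Q} (hA : A ∈ 𝓣) {p q : Q} (hp : p ∈ A) (hq : q ∈ A) (hpq : rk A p = rk A q) :
    p = q :=
  H1_inj h hA hp hq hpq

theorem Ch.rk_lt (h : Ch d 𝓣) {A : Set Q} (hA : A ∈ 𝓣) {q : Q} (hq : q ∈ A) : rk A q < d :=
  H1_rk_lt h hA hq

theorem Ch.glue (h : Ch d 𝓣) {A B : Set Q} (hA : A ∈ 𝓣) (hB : B ∈ 𝓣) {q : Q} (hqA : q ∈ A) (hqB : q ∈ B) :
    ∃ D ∈ 𝓣, q ∈ D ∧ (∀ p, rk A p ≤ rk A q → p ∈ A → p ∈ D) ∧ ∀ p, rk B q ≤ rk B p → p ∈ B → p ∈ D := by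
  obtain ⟨D, hD, hsub⟩ := H1_glue0 h hA hB hqA hqB
  have hq : q ∈ D := hsub (Or.inl ⟨hqA, le_rfl⟩)
  refine ⟨D, hD, hq, fun p h1 h2 => hsub (Or.inl ⟨h2, H1_le h hA h2 hqA h1⟩), fun p h1 h2 => ?_⟩
  rcases (H1_le h hB hqB h2 h1).lt_or_eq with h3 | h3
  · exact hsub (Or.inr ⟨h2, h3⟩)
  · rw [← h3]; exact hq

end Pool.Agent.LibFL52
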