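import Pool.Agent.LibFL52.C1
import Pool.Agent.LibFL52.G3
import Pool.Agent.LibFL52.H1

/-! Row H2 (MEDIUM/STRONG). The flag system of the polytope. ONLY Mathlib, Defs, G1, G2, G3, H1.

`Ch d {A | ∃ x ∈ S, A = T a b x}`: `card` is `h.tight`; `chain` is the hypothesis (`hC`).
`v k x` := the element `q` of `T a b x` with `rk (T a b x) q = k` (`Ch.nth`; for `k ≥ d` anything, `Q` is nonempty because `d > 0`). `s k x` := the vertex `y` with `Nb (v k x) x y` (`nb_exists`), `x` for `k ≥ d`.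
Facts: `q ∈ T x ↔ ∃ k < d, q = v k x` (`rk_lt`, `rk_inj`); if `q ∈ T x ∩ T y` has rank `k` in `x` then it has rank `k` in `y` (`rank_eq`); so `v k x = v k y ↔ v k x ∈ T y`.
keep: `v j x ∈ T x \ {v k x} ⊆ T (s k x)` for `j ≠ k`. move: otherwise `T x ⊆ T (s k x)`, so `s k x = x` (`tight_inj`), but `Nb` says `≠`.
uniq: `T x \ {v k x} ⊆ T y`: if `y ≠ x` then `Nb (v k x) x y`, so `y = s k x` by `nb_unique`. mix: `Ch.glue` with `q = v k x = v k y`: `D = T z`; the elements `v j x`, `j ≤ k`, and `v j y`, `j ≥ k`, are in `T z`.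
conn: `path` with `C = {v j x | j < k}`: a step `Nb q u u'` with `q ∉ C`, `C ⊆ T u`: `q = v j u` for some `j < d`, and `j ≥ k` (for `j < k` the elements `v j x ∈ T u` have rank `j` in `u`, so `v j u = v j x ∈ C`); `u' = s j u` by `nb_unique`.
Lift the ReflTransGen from `E d` to the subtype `S` (`Relation.ReflTransGen.lift` does not apply directly: show by induction for all `u` reached: `u ∈ S` and the lifted path exists). -/

set_option autoImplicit false

noncomputable section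

open scoped Classical

namespace Pool.Agent.LibFL52

variable {d : ℕ} {Q : Type} [Fintype Q] [PartialOrder Q] {a : Q → E d} {b : Q → ℝ} {S : Finset (E d)}

theorem Po.flags (h : Po a b S) (hd : 0 < d)
    (hC : ∀ C : Set Q, (∃ x ∈ S, ∀ q ∈ C, inner ℝ (a q) x = b q) ↔ IsChain (· ≤ ·) C) :
    ∃ (v : ℕ → S → Q) (s : ℕ → S → S), Fl d v s ∧ ∀ k < d, ∀ x : S, Nb a b S (v k x) (x : E d) (s k x : E d) := by
  have hT : Ch d {A : Set Q | ∃ x ∈ S, A = T a b x} := by
    constructor
    · rintro A ⟨x, hx, rfl⟩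
      exact h.tight x hx
    · intro C
      rw [← hC C]
      constructor
      · rintro ⟨A, ⟨x, hx, rfl⟩, hCA⟩
        exact ⟨x, hx, fun q hq => hCA hq⟩
      · rintro ⟨x, hx, hq⟩
        exact ⟨T a b x, ⟨x, hx, rfl⟩, fun q hq' => hq q hq'⟩
  have hmem : ∀ x : S, T a b (x : E d) ∈ {A : Set Q | ∃ x ∈ S, A = T a b x} := fun x => ⟨x, x.2, rfl⟩
  have hv0 : ∀ (k : ℕ) (x : S), ∃ q, k < d → q ∈ T a b (x : E d) ∧ rk (T a b (x : E d)) q = k := by
    intro k x
    by_cases hk : k < d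
    · obtain ⟨q, hq, hq'⟩ := hT.nth (hmem x) hk
      exact ⟨q, fun _ => ⟨hq, hq'⟩⟩
    · obtain ⟨q, -, -⟩ := hT.nth (hmem x) hd
      exact ⟨q, fun h' => absurd h' hk⟩
  choose v hv using hv0
  have hs0 : ∀ (k : ℕ) (x : S), ∃ y : S, k < d → Nb a b S (v k x) (x : E d) (y : E d) := by
    intro k x
    by_cases hk : k < d
    · obtain ⟨y, hy⟩ := h.nb_exists x.2 (hv k x hk).1
      exact ⟨⟨y, hy.1⟩, fun _ => hy⟩
    · exact ⟨x, fun h' => absurd h' hk⟩
  choose s hs using hs0
  have vall : ∀ (x : S) (q : Q), q ∈ T a b (x : E d) → ∃ k < d, q = v k x := by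
    intro x q hq
    have hk := hT.rk_lt (hmem x) hq
    exact ⟨rk (T a b (x : E d)) q, hk, hT.rk_inj (hmem x) hq (hv _ x hk).1 (hv _ x hk).2.symm⟩
  have veq : ∀ (k : ℕ) (x y : S), k < d → v k x ∈ T a b (y : E d) → v k y = v k x := by
    intro k x y hk hy
    have h1 := hT.rank_eq (hmem x) (hmem y) (hv k x hk).1 hy
    rw [(hv k x hk).2] at h1
    exact hT.rk_inj (hmem y) (hv k y hk).1 hy ((hv k y hk).2.trans h1)
  have vmem : ∀ (k : ℕ) (x y : S), k < d → v k y = v k x → v k x ∈ T a b (y : E d) := by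
    intro k x y hk hy
    rw [← hy]
    exact (hv k y hk).1
  have vne : ∀ (j k : ℕ) (x : S), j < d → k < d → j ≠ k → v j x ≠ v k x := by
    intro j k x hj hk hjk he
    apply hjk
    rw [← (hv j x hj).2, he, (hv k x hk).2]
  refine ⟨v, s, ⟨?_, ?_, ?_, ?_, ?_⟩, fun k hk x => hs k x hk⟩
  · intro k hk j hj hjk x
    exact veq j x (s k x) hj ((hs k x hk).2.2.2 ⟨(hv j x hj).1, vne j k x hj hk hjk⟩)
  · intro k hk x he
    refine (hs k x hk).2.1 (h.tight_inj x.2 (s k x).2 fun q hq => ?_).symm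
    by_cases hqk : q = v k x
    · rw [hqk]
      exact vmem k x (s k x) hk he
    · exact (hs k x hk).2.2.2 ⟨hq, hqk⟩
  · intro k hk x y hy
    by_cases hyx : y = x
    · exact Or.inl hyx
    · right
      have hN : Nb a b S (v k x) (x : E d) (y : E d) := by
        refine ⟨y.2, fun he => hyx (Subtype.ext he), (hv k x hk).1, ?_⟩
        rintro q ⟨hq, hqk⟩
        obtain ⟨j, hj, rfl⟩ := vall x q hq
        have hjk : j ≠ k := by
          rintro rfl
          exact hqk rfl
        exact vmem j x y hj (hy j hj hjk)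
      exact Subtype.ext (h.nb_unique x.2 hN (hs k x hk))
  · intro k hk x y hxy
    have h1 : v k x ∈ T a b (y : E d) := vmem k x y hk hxy.symm
    obtain ⟨D, ⟨z, hz, rfl⟩, -, hD1, hD2⟩ := hT.glue (hmem x) (hmem y) (hv k x hk).1 h1
    refine ⟨⟨z, hz⟩, fun j hj => ?_, fun j hj hjd => ?_⟩
    · have hjd : j < d := by omega
      refine veq j x ⟨z, hz⟩ hjd (hD1 _ ?_ (hv j x hjd).1)
      rw [(hv j x hjd).2, (hv k x hk).2]
      exact hj
    · refine veq j y ⟨z, hz⟩ hjd (hD2 _ ?_ (hv j y hjd).1)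
      rw [hxy, (hv j y hjd).2, (hv k y hk).2]
      exact hj
  · intro k hk x y hxy
    obtain ⟨C, hCd⟩ : ∃ C : Set Q, C = {q | ∃ j < k, q = v j x} := ⟨_, rfl⟩
    have hCx : C ⊆ T a b (x : E d) := by
      rw [hCd]
      rintro q ⟨j, hj, rfl⟩
      exact (hv j x (by omega)).1
    have hCy : C ⊆ T a b (y : E d) := by
      rw [hCd]
      rintro q ⟨j, hj, rfl⟩
      exact vmem j x y (by omega) (hxy j hj).symm
    have hp := h.path x.2 y.2 hCx hCy
    have key : ∀ u : E d, Relation.ReflTransGen (fun u u' => u ∈ S ∧ u' ∈ S ∧ C ⊆ T a b u ∧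
        ∃ q, q ∉ C ∧ Nb a b S q u u') (x : E d) u → ∀ hu : u ∈ S,
        Relation.ReflTransGen (fun u w => ∃ j, k ≤ j ∧ j < d ∧ w = s j u) x (⟨u, hu⟩ : S) := by
      intro u hu
      induction hu with
      | refl => intro _; exact Relation.ReflTransGen.refl
      | tail _ hstep ih =>
        intro hu'
        obtain ⟨hu1, -, hCu, q, hqC, hN⟩ := hstep
        refine (ih hu1).tail ?_
        obtain ⟨j, hj, rfl⟩ := vall ⟨_, hu1⟩ q hN.2.2.1
        refine ⟨j, ?_, hj, ?_⟩
        · by_contra hjk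
          push Not at hjk
          have h1 : v j x ∈ C := by
            rw [hCd]
            exact ⟨j, hjk, rfl⟩
          have h2 := veq j x ⟨_, hu1⟩ hj (hCu h1)
          rw [h2] at hqC
          exact hqC h1
        · exact Subtype.ext (h.nb_unique hu1 hN (hs j ⟨_, hu1⟩ hj))
    exact key y hp y.2

end Pool.Agent.LibFL52
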