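import Pool.Agent.LibFL52.C5
import Pool.Agent.LibFL52.G4
import Pool.Agent.LibFL52.H2

/-! Assembly. -/

set_option autoImplicit false

noncomputable section

open scoped Classical

namespace Pool.Agent.LibFL52

theorem ham_poset {d : ℕ} (hd : 2 ≤ d) {Q : Type} [Fintype Q] [PartialOrder Q] {a : Q → E d} {b : Q → ℝ}
    {S : Finset (E d)} (h : Po a b S)
    (hC : ∀ C : Set Q, (∃ x ∈ S, ∀ q ∈ C, inner ℝ (a q) x = b q) ↔ IsChain (· ≤ ·) C) : (gr S).IsHamiltonian := by
  obtain ⟨v, s, hF, hN⟩ := h.flags (by omega) hC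
  have : Nonempty S := h.ne.to_subtype
  have h1 := hF.ham hd (gr S) (fun k hk x => h.gr_adj x (s k x) (hN k hk x))
  exact h1

end Pool.Agent.LibFL52
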